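import Pool.Agent.H4.ST.Main

/-! The densities of the pieces are non-negative. -/

set_option autoImplicit false

namespace Pool.Agent.H4.ST

open Pool.Agent.H70.CS Filter Topology MeasureTheory Complex Pool.Agent.H4.Coset ComplexConjugate

variable {n : ℕ}

instance (Λ : AddSubgroup (Weight n)) : (hm Λ).IsOpenPosMeasure := by
  unfold hm; infer_instance

/-- the integral of a real density against a character -/
lemma integral_re_den (P : Piece (Weight n)) (c : ℂ) (l : Weight n) :
    ∫ y : ann P.Λ, (c * ((chr (y : Torus n) l : ℂ) * den P y)).re ∂(hm P.Λ) =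
      (c * (P.val l : ℂ)).re := by
  have hc : Continuous fun y : Torus n => c * ((chr y l : ℂ) * den P y) :=
    continuous_const.mul ((chC l).continuous.mul (continuous_den P))
  have h1 : ∫ y : ann P.Λ, (c * ((chr (y : Torus n) l : ℂ) * den P y)).re ∂(hm P.Λ) =
      (∫ y : ann P.Λ, c * ((chr (y : Torus n) l : ℂ) * den P y) ∂(hm P.Λ)).re :=
    integral_re (integrable_ann P.Λ hc)
  rw [h1, integral_const_mul, integral_den]

lemma nonneg_trig (P : Piece (Weight n)) (hP : PosDef P.val) (z : Weight n →₀ ℂ) :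
    0 ≤ ∫ y : ann P.Λ, ‖z.sum fun a c => c * (chr (y : Torus n) a : ℂ)‖ ^ 2 * (den P y).re
      ∂(hm P.Λ) := by
  have e1 : ∀ y : ann P.Λ, ‖z.sum fun a c => c * (chr (y : Torus n) a : ℂ)‖ ^ 2 * (den P y).re =
      ∑ a ∈ z.support, ∑ b ∈ z.support,
        ((z a * conj (z b)) * ((chr (y : Torus n) (a - b) : ℂ) * den P y)).re := by
    intro y
    have e2 : ((‖z.sum fun a c => c * (chr (y : Torus n) a : ℂ)‖ ^ 2 : ℝ) : ℂ) =
        ∑ a ∈ z.support, ∑ b ∈ z.support, (z a * conj (z b)) * (chr (y : Torus n) (a - b) : ℂ) := by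
      rw [← Complex.normSq_eq_norm_sq, ← Complex.mul_conj]
      unfold Finsupp.sum
      rw [map_sum, Finset.sum_mul]
      refine Finset.sum_congr rfl fun a _ => ?_
      rw [Finset.mul_sum]
      refine Finset.sum_congr rfl fun b _ => ?_
      rw [map_mul, sub_eq_add_neg, chr_add, chr_neg, Circle.coe_mul, Circle.coe_inv_eq_conj]
      ring
    rw [← Complex.re_ofReal_mul, e2, Finset.sum_mul, Complex.re_sum]
    refine Finset.sum_congr rfl fun a _ => ?_
    rw [Finset.sum_mul, Complex.re_sum]
    refine Finset.sum_congr rfl fun b _ => ?_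
    rw [mul_assoc]
  have hi : ∀ a b, Integrable (fun y : ann P.Λ =>
      ((z a * conj (z b)) * ((chr (y : Torus n) (a - b) : ℂ) * den P y)).re) (hm P.Λ) := by
    intro a b
    have hc : Continuous fun y : Torus n => (z a * conj (z b)) * ((chr y (a - b) : ℂ) * den P y) :=
      continuous_const.mul ((chC (a - b)).continuous.mul (continuous_den P))
    exact (integrable_ann P.Λ hc).re
  simp only [e1]
  rw [integral_finsetSum _ fun a _ => integrable_finsetSum _ fun b _ => hi a b]
  have h2 : ∀ a, ∫ y : ann P.Λ, ∑ b ∈ z.support,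
      ((z a * conj (z b)) * ((chr (y : Torus n) (a - b) : ℂ) * den P y)).re ∂(hm P.Λ) =
      ∑ b ∈ z.support, ((z a).re * (z b).re + (z a).im * (z b).im) * (P.val (a - b) : ℝ) := by
    intro a
    rw [integral_finsetSum _ fun b _ => hi a b]
    refine Finset.sum_congr rfl fun b _ => ?_
    rw [integral_re_den]
    have : ((P.val (a - b) : ℤ) : ℂ) = (((P.val (a - b) : ℤ) : ℝ) : ℂ) := by push_cast; rfl
    rw [this, mul_comm, Complex.re_ofReal_mul, Complex.mul_re, Complex.conj_re, Complex.conj_im]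
    ring
  simp only [h2]
  -- real and imaginary parts
  have h3 : ∀ g : ℂ → ℝ, g 0 = 0 → 0 ≤ ∑ a ∈ z.support, ∑ b ∈ z.support,
      g (z a) * g (z b) * (P.val (a - b) : ℝ) := by
    intro g hg
    have h4 := hP (z.mapRange g hg)
    have h5 : ((z.mapRange g hg).sum fun a x => (z.mapRange g hg).sum fun b y =>
        x * y * (P.val (a - b) : ℝ)) = ∑ a ∈ z.support, ∑ b ∈ z.support,
        g (z a) * g (z b) * (P.val (a - b) : ℝ) := by
      rw [Finsupp.sum_mapRange_index]
      · unfold Finsupp.sum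
        refine Finset.sum_congr rfl fun a _ => ?_
        have h6 := Finsupp.sum_mapRange_index (f := g) (hf := hg) (g := z)
          (h := fun b y => g (z a) * y * (P.val (a - b) : ℝ)) (fun b => by ring)
        unfold Finsupp.sum at h6
        exact h6
      · intro a
        unfold Finsupp.sum
        refine Finset.sum_eq_zero fun b _ => ?_
        ring
    rw [← h5]
    exact h4
  have h6 := h3 (fun w => w.re) rfl
  have h7 := h3 (fun w => w.im) rfl
  have h8 : ∑ a ∈ z.support, ∑ b ∈ z.support,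
      ((z a).re * (z b).re + (z a).im * (z b).im) * (P.val (a - b) : ℝ) =
      (∑ a ∈ z.support, ∑ b ∈ z.support, (z a).re * (z b).re * (P.val (a - b) : ℝ)) +
      ∑ a ∈ z.support, ∑ b ∈ z.support, (z a).im * (z b).im * (P.val (a - b) : ℝ) := by
    rw [← Finset.sum_add_distrib]
    refine Finset.sum_congr rfl fun a _ => ?_
    rw [← Finset.sum_add_distrib]
    refine Finset.sum_congr rfl fun b _ => ?_
    ring
  rw [h8]
  exact add_nonneg h6 h7

lemma nonneg_cont (P : Piece (Weight n)) (hP : PosDef P.val) (q : C(Torus n, ℂ)) :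
    0 ≤ ∫ y : ann P.Λ, ‖q (y : Torus n)‖ ^ 2 * (den P y).re ∂(hm P.Λ) := by
  obtain ⟨M, hM⟩ : ∃ M, ∀ y, ‖den P y‖ ≤ M := by
    let g : C(Torus n, ℂ) := ⟨den P, continuous_den P⟩
    exact ⟨‖g‖, fun y => g.norm_coe_le_norm y⟩
  have hM0 : 0 ≤ M := (norm_nonneg _).trans (hM 1)
  have hMre : ∀ y, |(den P y).re| ≤ M := fun y => (Complex.abs_re_le_norm _).trans (hM y)
  have hcont : Continuous fun q : C(Torus n, ℂ) =>
      ∫ y : ann P.Λ, ‖q (y : Torus n)‖ ^ 2 * (den P y).re ∂(hm P.Λ) := by
    rw [continuous_iff_continuousAt]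
    intro q0
    rw [ContinuousAt]
    refine tendsto_integral_filter_of_dominated_convergence (fun _ => (‖q0‖ + 1) ^ 2 * M) ?_ ?_
      (integrable_const _) ?_
    · refine Eventually.of_forall fun q => Continuous.aestronglyMeasurable ?_
      exact ((q.continuous.comp continuous_subtype_val).norm.pow 2).mul
        (Complex.continuous_re.comp ((continuous_den P).comp continuous_subtype_val))
    · have h1 : ∀ᶠ q : C(Torus n, ℂ) in 𝓝 q0, ‖q‖ < ‖q0‖ + 1 :=
        continuous_norm.continuousAt.eventually (gt_mem_nhds (by linarith))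
      filter_upwards [h1] with q hq
      refine Eventually.of_forall fun y => ?_
      rw [norm_mul, Real.norm_of_nonneg (by positivity), Real.norm_eq_abs]
      refine mul_le_mul (pow_le_pow_left₀ (norm_nonneg _) ?_ 2) (hMre _) (abs_nonneg _)
        (by positivity)
      exact (q.norm_coe_le_norm _).trans hq.le
    · refine Eventually.of_forall fun y => ?_
      have h2 : Continuous fun q : C(Torus n, ℂ) => ‖q (y : Torus n)‖ ^ 2 * (den P y).re :=
        ((continuous_eval_const (F := C(Torus n, ℂ)) (y : Torus n)).norm.pow 2).mul continuous_const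
      exact h2.continuousAt
  have hcl : IsClosed {q : C(Torus n, ℂ) |
      0 ≤ ∫ y : ann P.Λ, ‖q (y : Torus n)‖ ^ 2 * (den P y).re ∂(hm P.Λ)} :=
    isClosed_le continuous_const hcont
  have h1 : q ∈ (trig n).topologicalClosure := by rw [trig_dense]; trivial
  have h2 : q ∈ closure ((trig n : StarSubalgebra ℂ C(Torus n, ℂ)) : Set C(Torus n, ℂ)) := by
    rwa [← StarSubalgebra.topologicalClosure_coe]
  refine closure_minimal ?_ hcl h2
  intro g hg
  have hg' : g ∈ Submodule.span ℂ (Set.range (chC (n := n))) := hg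
  rw [Finsupp.mem_span_range_iff_exists_finsupp] at hg'
  obtain ⟨z, rfl⟩ := hg'
  have h3 := nonneg_trig P hP z
  have h4 : ∀ y : Torus n, (z.sum fun i a => a • chC i) y = z.sum fun a c => c * (chr y a : ℂ) := by
    intro y
    unfold Finsupp.sum
    rw [ContinuousMap.sum_apply]
    rfl
  show 0 ≤ ∫ y : ann P.Λ, ‖(z.sum fun i a => a • chC i) (y : Torus n)‖ ^ 2 * (den P y).re ∂(hm P.Λ)
  simp only [h4]
  exact h3

/-- **The densities are non-negative.** -/
theorem den_nonneg (P : Piece (Weight n)) (hP : PosDef P.val) {y : Torus n} (hy : y ∈ ann P.Λ) :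
    0 ≤ (den P y).re := by
  set u : Torus n → ℝ := fun y => (den P y).re with hu
  have huc : Continuous u := Complex.continuous_re.comp (continuous_den P)
  let q : C(Torus n, ℂ) := ⟨fun y => ((Real.sqrt (max (-u y) 0) : ℝ) : ℂ),
    Complex.continuous_ofReal.comp ((huc.neg.max continuous_const).sqrt)⟩
  have h1 := nonneg_cont P hP q
  have h2 : ∀ y : ann P.Λ, ‖q (y : Torus n)‖ ^ 2 * (den P y).re = -(max (-u y) 0) ^ 2 := by
    intro y
    show ‖((Real.sqrt (max (-u y) 0) : ℝ) : ℂ)‖ ^ 2 * u y = _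
    rw [Complex.norm_real, Real.norm_of_nonneg (Real.sqrt_nonneg _),
      Real.sq_sqrt (le_max_right _ _)]
    rcases le_total (-u y) 0 with h | h
    · rw [max_eq_right h]; ring
    · rw [max_eq_left h]; ring
  simp only [h2] at h1
  rw [integral_neg] at h1
  have hc2 : Continuous fun y : ann P.Λ => (max (-u y) 0) ^ 2 :=
    ((huc.neg.max continuous_const).comp continuous_subtype_val).pow 2
  have hnn : 0 ≤ fun y : ann P.Λ => (max (-u y) 0) ^ 2 := fun y => sq_nonneg _
  have hint : Integrable (fun y : ann P.Λ => (max (-u y) 0) ^ 2) (hm P.Λ) := by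
    have hcc : Continuous fun y : Torus n => (((max (-u y) 0) ^ 2 : ℝ) : ℂ) :=
      Complex.continuous_ofReal.comp ((huc.neg.max continuous_const).pow 2)
    have := (integrable_ann P.Λ hcc).re
    exact this.congr (Eventually.of_forall fun y => Complex.ofReal_re _)
  have h3 : ∫ y : ann P.Λ, (max (-u y) 0) ^ 2 ∂(hm P.Λ) = 0 :=
    le_antisymm (by linarith) (integral_nonneg hnn)
  rw [integral_eq_zero_iff_of_nonneg hnn hint] at h3
  have h4 := (Continuous.ae_eq_iff_eq (hm P.Λ) hc2 (continuous_const (y := (0 : ℝ)))).1 h3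
  have h5 := congrFun h4 ⟨y, hy⟩
  have h6 : max (-u y) 0 = 0 := by
    have h7 : (max (-u y) 0) ^ 2 = 0 := h5
    exact pow_eq_zero_iff (two_ne_zero) |>.1 h7
  have h8 : -u y ≤ 0 := by rw [← h6]; exact le_max_left _ _
  linarith

end Pool.Agent.H4.ST
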