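import Pool.Agent.H4.ST.Struct

/-! Limit distributions and L-functions. -/

set_option autoImplicit false

namespace Pool.Agent.H4.ST

open Pool.Agent.H70.CS Filter Topology MeasureTheory Complex Pool.Agent.H4.Coset ComplexConjugate

variable {n : ℕ}

lemma logA_continuousOn (A : Nat.Primes → Torus n) (ρ : Weight n →₀ ℤ) :
    ContinuousOn (logA A ρ) (HP 1) := by
  unfold logA Finsupp.sum
  refine continuousOn_finsetSum _ fun l _ => ?_
  exact (lam_continuousOn fun p => by rw [Circle.norm_coe]).const_mul _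

/-- the sum over the primes attached to a virtual representation -/
noncomputable def dirA (A : Nat.Primes → Torus n) (ρ : Weight n →₀ ℤ) (s : ℂ) : ℂ :=
  ρ.sum fun l m => (m : ℂ) * dir (fun p => (chr (A p) l : ℂ)) s

lemma edge_sum {ι : Type} (s : Finset ι) (f : ι → ℂ → ℂ) (k : ι → ℂ)
    (h : ∀ i ∈ s, Edge (f i) (k i)) : Edge (fun z => ∑ i ∈ s, f i z) (∑ i ∈ s, k i) := by
  classical
  induction s using Finset.induction_on with
  | empty =>
    simp only [Finset.sum_empty]
    exact ⟨0, Eventually.of_forall fun σ => by simp⟩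
  | insert a s ha ih =>
    simp only [Finset.sum_insert ha]
    exact (h a (Finset.mem_insert_self a s)).add (ih fun i hi => h i (Finset.mem_insert_of_mem hi))

/-- the order at `s = 1` -/
lemma edge_dirA (A : Nat.Primes → Torus n) (ρ : Weight n →₀ ℤ) {F : ℂ → ℂ}
    (hF : MeromorphicAt F 1) (h : ∀ s : ℂ, 1 < s.re → F s = LFun A ρ s) :
    ∃ k : ℤ, meromorphicOrderAt F 1 = k ∧ Edge (dirA A ρ) k := by
  have h1 : ∀ s : ℂ, 1 < s.re → F s = Complex.exp (logA A ρ s) := fun s hs => by
    rw [h s hs, LFun_eq A ρ hs]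
  obtain ⟨k, hk⟩ := WithTop.ne_top_iff_exists.1 (order_ne_top h1)
  refine ⟨k, hk.symm, ?_⟩
  have h2 := edge_of_order (logA_continuousOn A ρ) hF hk.symm h1
  have h3 : Edge (fun s => ∑ l ∈ ρ.support, (-(ρ l : ℂ)) *
      (lam (fun p => (chr (A p) l : ℂ)) - dir fun p => (chr (A p) l : ℂ)) s)
      (∑ l ∈ ρ.support, (-(ρ l : ℂ)) * 0) :=
    edge_sum _ _ _ fun l _ => (edge_of_neg (lam_sub_dir fun p => by rw [Circle.norm_coe])).const_mul _
  have h4 := (h2.add h3).congr (g := dirA A ρ) fun s _ => by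
    unfold dirA logA Finsupp.sum
    rw [← Finset.sum_add_distrib]
    refine Finset.sum_congr rfl fun l _ => ?_
    simp only [Pi.sub_apply]
    ring
  simpa using h4

lemma norm_chr_le (A : Nat.Primes → Torus n) (l : Weight n) (p : Nat.Primes) :
    ‖(chr (A p) l : ℂ)‖ ≤ 1 := by rw [Circle.norm_coe]

/-- the means of the characters of the orbits -/
lemma MM_chC (A : Nat.Primes → Torus n) (l : Weight n) {σ : ℝ} (hσ : 1 < σ) :
    MM A (chC l) σ = ((Fintype.card (Weyl n) : ℂ))⁻¹ * (dirA A (orbit l) σ / dir (fun _ => 1) σ) := by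
  have h0 : (1 : ℝ) < (σ : ℂ).re := by rw [Complex.ofReal_re]; exact hσ
  unfold MM
  rw [mn_eq]
  have h1 : (fun p => avg (chC l) (A p)) = fun p => ((Fintype.card (Weyl n) : ℂ))⁻¹ *
      ∑ w : Weyl n, (chr (A p) (wact w l) : ℂ) := by
    funext p
    rw [avg_chC]
  rw [h1, dir_mul, mul_div_assoc]
  congr 2
  rw [dir_finset_sum Finset.univ (fun w p => (chr (A p) (wact w l) : ℂ)) (fun _ => 1)
    (fun w p => norm_chr_le A _ p) h0]
  unfold dirA
  rw [orbit_sum l fun ν => dir (fun p => (chr (A p) ν : ℂ)) σ]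

/-- `A` has the law `μ`, in the sense of the Dirichlet density -/
def HasLaw (A : Nat.Primes → Torus n) (μ : Measure (Torus n)) : Prop :=
  ∀ f : C(Torus n, ℝ), (∀ w y, f (tact w y) = f y) →
    Tendsto (fun σ : ℝ => (∑' p : Nat.Primes, f (A p) * ((p : ℕ) : ℝ) ^ (-σ)) /
      ∑' p : Nat.Primes, ((p : ℕ) : ℝ) ^ (-σ)) (𝓝[>] 1) (𝓝 (∫ y, f y ∂μ))

lemma MM_inv (A : Nat.Primes → Torus n) {f : C(Torus n, ℂ)} (hf : ∀ w y, f (tact w y) = f y) (σ : ℝ) :
    MM A f σ = mn (fun p => f (A p)) σ := by
  unfold MM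
  simp only [avg_inv hf]

lemma hasLaw_of (A : Nat.Primes → Torus n) {μ : Measure (Torus n)}
    (h : ∀ f : C(Torus n, ℂ), (∀ w y, f (tact w y) = f y) →
      Tendsto (fun σ => mn (fun p => f (A p)) σ) (𝓝[>] 1) (𝓝 (∫ y, f y ∂μ))) : HasLaw A μ := by
  intro f hf
  have h1 := h (toC f) fun w y => by rw [toC_apply, toC_apply, hf]
  have h2 : (∫ y, toC f y ∂μ) = ((∫ y, f y ∂μ : ℝ) : ℂ) := integral_complex_ofReal
  rw [h2] at h1
  have h3 := (Complex.continuous_re.tendsto _).comp h1
  rw [Complex.ofReal_re] at h3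
  refine h3.congr fun σ => ?_
  simp only [Function.comp_apply, toC_apply]
  rw [mn_ofReal, Complex.ofReal_re]
  rfl

lemma law_complex {A : Nat.Primes → Torus n} {μ : Measure (Torus n)} [IsProbabilityMeasure μ]
    (h : HasLaw A μ) {f : C(Torus n, ℂ)} (hf : ∀ w y, f (tact w y) = f y) :
    Tendsto (fun σ => mn (fun p => f (A p)) σ) (𝓝[>] 1) (𝓝 (∫ y, f y ∂μ)) := by
  have h1 := h (reC f) fun w y => by
    show (f (tact w y)).re = (f y).re
    rw [hf]
  have h2 := h (imC f) fun w y => by
    show (f (tact w y)).im = (f y).im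
    rw [hf]
  have h3 : (∫ y, f y ∂μ) = ((∫ y, reC f y ∂μ : ℝ) : ℂ) + Complex.I * ((∫ y, imC f y ∂μ : ℝ) : ℂ) := by
    rw [← integral_complex_ofReal, ← integral_complex_ofReal,
      ← integral_const_mul, ← integral_add (f := fun y => ((reC f y : ℝ) : ℂ))
        (g := fun y => Complex.I * ((imC f y : ℝ) : ℂ)) (integrable_cont μ (toC (reC f)))
        ((integrable_cont μ (toC (imC f))).const_mul _)]
    refine integral_congr_ae (Eventually.of_forall fun y => ?_)
    exact congrArg (fun g : C(Torus n, ℂ) => g y) (re_im_C f)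
  rw [h3]
  have h4 := ((Complex.continuous_ofReal.tendsto _).comp h1).add
    (((Complex.continuous_ofReal.tendsto _).comp h2).const_mul Complex.I)
  refine h4.congr' ?_
  filter_upwards [self_mem_nhdsWithin] with σ hσ
  have hσ' : (1 : ℝ) < σ := hσ
  have e : (fun p => f (A p)) = fun p => ((reC f (A p) : ℝ) : ℂ) + Complex.I * ((imC f (A p) : ℝ) : ℂ) := by
    funext p
    exact congrArg (fun g : C(Torus n, ℂ) => g (A p)) (re_im_C f)
  have h5 := mn_add (b := fun p => ((reC f (A p) : ℝ) : ℂ))
    (c := fun p => Complex.I * ((imC f (A p) : ℝ) : ℂ)) (M := ‖toC (reC f)‖) (M' := ‖toC (imC f)‖)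
    (fun p => (toC (reC f)).norm_coe_le_norm (A p)) (fun p => by
      rw [norm_mul, Complex.norm_I, one_mul]
      exact (toC (imC f)).norm_coe_le_norm (A p)) hσ'
  rw [e, h5, mn_smul, mn_ofReal, mn_ofReal]
  rfl

/-- the character of a virtual representation as a continuous function -/
noncomputable def chF (ρ : Weight n →₀ ℤ) : C(Torus n, ℂ) :=
  ⟨fun y => ρ.sum fun l m => (m : ℂ) * (chr y l : ℂ), by
    unfold Finsupp.sum
    exact continuous_finsetSum _ fun l _ => continuous_const.mul (chC l).continuous⟩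

lemma chF_apply (ρ : Weight n →₀ ℤ) (y : Torus n) :
    chF ρ y = ρ.sum fun l m => (m : ℂ) * (chr y l : ℂ) := rfl

lemma chF_inv {ρ : Weight n →₀ ℤ} (hρ : IsRep ρ) (w : Weyl n) (y : Torus n) :
    chF ρ (tact w y) = chF ρ y := by
  rw [chF_apply, chF_apply]
  unfold Finsupp.sum
  refine Finset.sum_bijective (wact w) (wact_bijective w) (fun μ => ?_) (fun μ _ => ?_)
  · rw [Finsupp.mem_support_iff, Finsupp.mem_support_iff, hρ]
  · beta_reduce
    rw [hρ, chr_tact]

lemma integral_chF (μ : Measure (Torus n)) [IsProbabilityMeasure μ] (ρ : Weight n →₀ ℤ) :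
    ∫ y, chF ρ y ∂μ = pair μ ρ := by
  simp only [chF_apply]
  unfold pair Finsupp.sum
  rw [integral_finsetSum]
  · refine Finset.sum_congr rfl fun l _ => ?_
    rw [integral_const_mul]
    rfl
  · intro l _
    exact (integrable_chr μ l).const_mul _

/-- means of the characters of virtual representations -/
lemma mn_chF (A : Nat.Primes → Torus n) (ρ : Weight n →₀ ℤ) {σ : ℝ} (hσ : 1 < σ) :
    mn (fun p => chF ρ (A p)) σ = dirA A ρ σ / dir (fun _ => 1) σ := by
  have h0 : (1 : ℝ) < (σ : ℂ).re := by rw [Complex.ofReal_re]; exact hσ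
  rw [mn_eq]
  congr 1
  simp only [chF_apply]
  unfold dirA Finsupp.sum
  rw [dir_finset_sum ρ.support (fun l p => (ρ l : ℂ) * (chr (A p) l : ℂ)) (fun l => ‖(ρ l : ℂ)‖)
    (fun l p => by rw [norm_mul, Circle.norm_coe, mul_one]) h0]
  refine Finset.sum_congr rfl fun l _ => ?_
  rw [dir_mul]

/-- orders and integrals -/
theorem order_eq {A : Nat.Primes → Torus n} {μ : Measure (Torus n)} [IsProbabilityMeasure μ]
    (h : HasLaw A μ) {ρ : Weight n →₀ ℤ} (hρ : IsRep ρ) {F : ℂ → ℂ}
    (hF : MeromorphicAt F 1) (hFe : ∀ s : ℂ, 1 < s.re → F s = LFun A ρ s) :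
    ∃ k : ℤ, meromorphicOrderAt F 1 = k ∧ ∫ y, chF ρ y ∂μ = -k := by
  obtain ⟨k, hk, hE⟩ := edge_dirA A ρ hF hFe
  refine ⟨k, hk, ?_⟩
  have h1 := law_complex h (chF_inv hρ)
  have h2 := tendsto_ratio hE edge_dir_one
  refine tendsto_nhds_unique h1 (h2.congr' ?_)
  filter_upwards [self_mem_nhdsWithin] with σ hσ
  rw [mn_chF A ρ hσ]

/-- the possible laws -/
def Laws (n : ℕ) : Set (Measure (Torus n)) :=
  {μ | IsProbabilityMeasure μ ∧ WInv μ ∧ ∀ ρ, IsRep ρ → ∃ k : ℤ, ∫ y, chF ρ y ∂μ = k}

/-- **Existence and uniqueness of the law.** -/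
theorem exists_unique_law (A : Nat.Primes → Torus n)
    (h : ∀ ρ, IsRep ρ → ∃ F : ℂ → ℂ, MeromorphicAt F 1 ∧ ∀ s : ℂ, 1 < s.re → F s = LFun A ρ s) :
    ∃! μ, μ ∈ Laws n ∧ HasLaw A μ := by
  choose F hF hFe using fun l : Weight n => h (orbit l) (orbit_isRep l)
  choose k hk hE using fun l : Weight n => edge_dirA A (orbit l) (hF l) (hFe l)
  obtain ⟨μ, hμ, hW, -, hM⟩ := exists_law A (fun l => ((Fintype.card (Weyl n) : ℂ))⁻¹ * (-(k l : ℂ)))
    fun l => by
      refine ((tendsto_ratio (hE l) edge_dir_one).const_mul _).congr' ?_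
      filter_upwards [self_mem_nhdsWithin] with σ hσ
      rw [MM_chC A l hσ]
  have hlaw : HasLaw A μ := hasLaw_of A fun f hf => (hM f).congr fun σ => MM_inv A hf σ
  refine ⟨μ, ⟨⟨hμ, hW, fun ρ hρ => ?_⟩, hlaw⟩, ?_⟩
  · obtain ⟨G, hG, hGe⟩ := h ρ hρ
    obtain ⟨k, -, hk⟩ := order_eq hlaw hρ hG hGe
    exact ⟨-k, by rw [hk]; push_cast; rfl⟩
  · rintro ν ⟨⟨hν, hνW, -⟩, hνl⟩
    refine law_unique hνW hW fun f hf => ?_
    exact tendsto_nhds_unique (law_complex hνl hf) (law_complex hlaw hf)

/-- natural density -/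
def HasNatLaw (A : Nat.Primes → Torus n) (μ : Measure (Torus n)) : Prop :=
  ∀ f : C(Torus n, ℝ), Tendsto (fun N : ℕ => (∑ q ∈ Finset.range N,
    (if h : q.Prime then f (A ⟨q, h⟩) else 0)) / (Nat.count Nat.Prime N : ℝ)) atTop
      (𝓝 (∫ y, f y ∂μ))

/-- **All laws occur.** -/
theorem exists_of_law (μ : Measure (Torus n)) [IsProbabilityMeasure μ] {ι : Type} [Countable ι]
    (d : ι → ℕ) (B : ∀ i, Nat.Primes → Fin (d i) → ℂ) (hB : ∀ i p j, ‖B i p j‖ ≤ 1) :
    ∃ A : Nat.Primes → Torus n, HasLaw A μ ∧ HasNatLaw A μ ∧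
      (∀ ρ : Weight n →₀ ℤ, (∃ F : ℂ → ℂ, MeromorphicAt F 1 ∧ ∀ s : ℂ, 1 < s.re → F s = LFun A ρ s) →
        ∃ k : ℤ, ∫ y, chF ρ y ∂μ = k) ∧
      ∀ (ρ : Weight n →₀ ℤ) (k : ℤ), ∫ y, chF ρ y ∂μ = k →
        (∃ g : ℂ → ℂ, DifferentiableOn ℂ g (HP (1 / 2)) ∧
          ∀ s : ℂ, 1 < s.re → LFun A ρ s = riemannZeta s ^ k * Complex.exp (g s)) ∧
        ∀ i, ∃ g : ℂ → ℂ, DifferentiableOn ℂ g (HP (1 / 2)) ∧
          ∀ s : ℂ, 1 < s.re → LTwist A ρ (B i) s = LEuler (B i) s ^ k * Complex.exp (g s) := by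
  obtain ⟨A, hA1, hA2, hA3⟩ := exists_family μ d B hB
  have hEdge : ∀ l, Edge (dir fun p => (chr (A p) l : ℂ)) (-four μ l) := by
    intro l
    have h3 := (edge_of_neg (hA2 l)).add (edge_dir_one.const_mul (four μ l))
    have h4 : (0 : ℂ) + four μ l * -1 = -four μ l := by ring
    rw [h4] at h3
    refine h3.congr fun s hs => ?_
    rw [← dir_mul]
    have h5 := dir_add (b := fun p => (chr (A p) l : ℂ) - four μ l) (c := fun _ => four μ l * 1)
      (M := 2) (M' := 1) (fun p => ?_) (fun p => ?_) hs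
    · rw [← h5]
      congr 1
      funext p
      ring
    · refine (norm_sub_le _ _).trans ?_
      rw [Circle.norm_coe]
      have := norm_four_le μ l
      linarith
    · rw [mul_one]; exact norm_four_le μ l
  refine ⟨A, ?_, ?_, ?_, fun ρ k hk => ?_⟩
  · -- Dirichlet density
    refine hasLaw_of A fun f _ => ?_
    revert f
    have hgen : ∀ f : C(Torus n, ℂ), Tendsto (fun σ => mn (fun p => f (A p)) σ) (𝓝[>] 1)
        (𝓝 (∫ y, f y ∂μ)) := by
      refine induction_chr ?_ ?_ ?_ ?_
      · refine isClosed_lim (fun σ f => mn (fun p => f (A p)) σ) (fun f => ∫ y, f y ∂μ) ?_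
          (norm_integral_sub_le μ)
        filter_upwards [self_mem_nhdsWithin] with σ hσ f g
        have e : mn (fun p => f (A p)) σ - mn (fun p => g (A p)) σ = mn (fun p => (f - g) (A p)) σ := by
          have e1 : (fun p => (f - g) (A p)) = fun p => f (A p) + (-1 : ℂ) * g (A p) := by
            funext p
            rw [ContinuousMap.sub_apply]; ring
          rw [e1, mn_add (M := ‖f‖) (M' := ‖g‖) (fun p => f.norm_coe_le_norm _) (fun p => ?_) hσ,
            mn_smul]
          · ring
          · rw [norm_mul, norm_neg, norm_one, one_mul]; exact g.norm_coe_le_norm _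
        rw [e]
        exact norm_mn_le (fun p => (f - g).norm_coe_le_norm _) hσ
      · intro f g hf hg
        have h2 : (∫ y, (f + g) y ∂μ) = (∫ y, f y ∂μ) + ∫ y, g y ∂μ :=
          integral_add (integrable_cont μ f) (integrable_cont μ g)
        rw [h2]
        refine (hf.add hg).congr' ?_
        filter_upwards [self_mem_nhdsWithin] with σ hσ
        rw [← mn_add (M := ‖f‖) (M' := ‖g‖) (fun p => f.norm_coe_le_norm _)
          (fun p => g.norm_coe_le_norm _) hσ]
        rfl
      · intro c f hf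
        have h2 : (∫ y, (c • f) y ∂μ) = c * ∫ y, f y ∂μ := integral_const_mul c _
        rw [h2]
        refine (hf.const_mul c).congr fun σ => ?_
        rw [← mn_smul]
        rfl
      · intro l
        have h2 : (∫ y, chC l y ∂μ) = four μ l := rfl
        rw [h2]
        have h6 := tendsto_ratio (hEdge l) edge_dir_one
        rw [neg_neg] at h6
        refine h6.congr fun σ => ?_
        rw [mn_eq]
        rfl
    intro f _
    exact hgen f
  · -- natural density
    have hcount : Tendsto (fun N : ℕ => (Nat.count Nat.Prime N : ℝ)) atTop atTop := by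
      refine tendsto_natCast_atTop_atTop.comp ?_
      refine tendsto_atTop_atTop_of_monotone (Nat.count_monotone _) fun b => ?_
      refine ⟨Nat.nth Nat.Prime b, ?_⟩
      rw [Nat.count_nth_of_infinite Nat.infinite_setOfPred_prime]
    have hgen : ∀ f : C(Torus n, ℂ), Tendsto (fun N : ℕ => (∑ q ∈ Finset.range N,
        (if h : q.Prime then f (A ⟨q, h⟩) else 0)) / (Nat.count Nat.Prime N : ℂ)) atTop
        (𝓝 (∫ y, f y ∂μ)) := by
      have hsumcount : ∀ N : ℕ, ∑ q ∈ Finset.range N, (if q.Prime then (1 : ℝ) else 0) =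
          Nat.count Nat.Prime N := by
        intro N
        rw [Finset.sum_ite, Finset.sum_const_zero, add_zero, Finset.sum_const, nsmul_eq_mul, mul_one,
          Nat.count_eq_card_filter_range]
      have hbound : ∀ (f : C(Torus n, ℂ)) (N : ℕ), ‖(∑ q ∈ Finset.range N,
          (if h : q.Prime then f (A ⟨q, h⟩) else 0)) / (Nat.count Nat.Prime N : ℂ)‖ ≤ ‖f‖ := by
        intro f N
        rw [norm_div, Complex.norm_natCast]
        refine div_le_of_le_mul₀ (Nat.cast_nonneg _) (norm_nonneg _) ?_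
        rw [← hsumcount, Finset.mul_sum]
        refine (norm_sum_le _ _).trans (Finset.sum_le_sum fun q _ => ?_)
        split_ifs with h
        · rw [mul_one]; exact f.norm_coe_le_norm _
        · simp
      refine induction_chr ?_ ?_ ?_ ?_
      · refine isClosed_lim (fun (N : ℕ) f => (∑ q ∈ Finset.range N,
          (if h : q.Prime then f (A ⟨q, h⟩) else 0)) / (Nat.count Nat.Prime N : ℂ))
          (fun f => ∫ y, f y ∂μ) ?_ (norm_integral_sub_le μ)
        refine Eventually.of_forall fun N f g => ?_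
        refine le_trans (le_of_eq ?_) (hbound (f - g) N)
        rw [← sub_div, ← Finset.sum_sub_distrib]
        congr 2
        refine Finset.sum_congr rfl fun q _ => ?_
        split_ifs with h
        · rw [ContinuousMap.sub_apply]
        · ring
      · intro f g hf hg
        have h2 : (∫ y, (f + g) y ∂μ) = (∫ y, f y ∂μ) + ∫ y, g y ∂μ :=
          integral_add (integrable_cont μ f) (integrable_cont μ g)
        rw [h2]
        refine (hf.add hg).congr fun N => ?_
        rw [← add_div, ← Finset.sum_add_distrib]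
        congr 1
        refine Finset.sum_congr rfl fun q _ => ?_
        split_ifs with h
        · rw [ContinuousMap.add_apply]
        · ring
      · intro c f hf
        have h2 : (∫ y, (c • f) y ∂μ) = c * ∫ y, f y ∂μ := integral_const_mul c _
        rw [h2]
        refine (hf.const_mul c).congr fun N => ?_
        rw [← mul_div_assoc, Finset.mul_sum]
        congr 1
        refine Finset.sum_congr rfl fun q _ => ?_
        split_ifs with h
        · rw [ContinuousMap.smul_apply, smul_eq_mul]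
        · ring
      · intro l
        have h2 : (∫ y, chC l y ∂μ) = four μ l := rfl
        rw [h2]
        obtain ⟨C, hC0, hC⟩ := hA1 l
        rw [tendsto_iff_norm_sub_tendsto_zero]
        have hsq : Tendsto (fun N : ℕ => C / Real.sqrt (Nat.count Nat.Prime N)) atTop (𝓝 0) :=
          (Real.tendsto_sqrt_atTop.comp hcount).const_div_atTop C
        refine squeeze_zero' (Eventually.of_forall fun _ => norm_nonneg _) ?_ hsq
        filter_upwards [hcount.eventually_gt_atTop 0] with N hN
        have hN' : (Nat.count Nat.Prime N : ℂ) ≠ 0 := by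
          have : (Nat.count Nat.Prime N : ℝ) ≠ 0 := hN.ne'
          exact_mod_cast this
        have e : (∑ q ∈ Finset.range N, (if h : q.Prime then chC l (A ⟨q, h⟩) else 0)) /
            (Nat.count Nat.Prime N : ℂ) - four μ l = (∑ q ∈ Finset.range N,
            (if h : q.Prime then ((chr (A ⟨q, h⟩) l : ℂ) - four μ l) else 0)) /
            (Nat.count Nat.Prime N : ℂ) := by
          have e1 : ∑ q ∈ Finset.range N, (if h : q.Prime then ((chr (A ⟨q, h⟩) l : ℂ) - four μ l) else 0)
              = ∑ q ∈ Finset.range N, (if h : q.Prime then chC l (A ⟨q, h⟩) else 0) -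
                four μ l * (Nat.count Nat.Prime N : ℂ) := by
            have e2 : (Nat.count Nat.Prime N : ℂ) =
                ∑ q ∈ Finset.range N, (if q.Prime then (1 : ℂ) else 0) := by
              rw [Finset.sum_ite, Finset.sum_const_zero, add_zero, Finset.sum_const, nsmul_eq_mul,
                mul_one, Nat.count_eq_card_filter_range]
            rw [e2, Finset.mul_sum, ← Finset.sum_sub_distrib]
            refine Finset.sum_congr rfl fun q _ => ?_
            by_cases h : q.Prime
            · rw [dif_pos h, dif_pos h, if_pos h, mul_one]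
              rfl
            · rw [dif_neg h, dif_neg h, if_neg h]; ring
          rw [e1]
          field_simp
        rw [e, norm_div, Complex.norm_natCast]
        refine (div_le_div_of_nonneg_right (hC N) hN.le).trans (le_of_eq ?_)
        have h3 : Real.sqrt (Nat.count Nat.Prime N) ≠ 0 := (Real.sqrt_pos.2 hN).ne'
        have h4 : (Nat.count Nat.Prime N : ℝ) =
            Real.sqrt (Nat.count Nat.Prime N) * Real.sqrt (Nat.count Nat.Prime N) :=
          (Real.mul_self_sqrt hN.le).symm
        rw [div_eq_div_iff hN.ne' h3, mul_assoc, ← h4]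
    intro f
    have h1 := hgen (toC f)
    have h2 : (∫ y, toC f y ∂μ) = ((∫ y, f y ∂μ : ℝ) : ℂ) := integral_complex_ofReal
    rw [h2] at h1
    have h3 := (Complex.continuous_re.tendsto _).comp h1
    rw [Complex.ofReal_re] at h3
    refine h3.congr fun N => ?_
    simp only [Function.comp_apply]
    have e : (∑ q ∈ Finset.range N, (if h : q.Prime then toC f (A ⟨q, h⟩) else 0)) /
        (Nat.count Nat.Prime N : ℂ) = (((∑ q ∈ Finset.range N,
        (if h : q.Prime then f (A ⟨q, h⟩) else 0)) / (Nat.count Nat.Prime N : ℝ) : ℝ) : ℂ) := by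
      push_cast
      congr 1
      refine Finset.sum_congr rfl fun q _ => ?_
      split_ifs with h
      · rfl
      · simp
    rw [e, Complex.ofReal_re]
  · rintro ρ ⟨F, hF, hFe⟩
    obtain ⟨k, -, hk⟩ := edge_dirA A ρ hF hFe
    have h1 : Edge (dirA A ρ) (∑ l ∈ ρ.support, (ρ l : ℂ) * (-four μ l)) :=
      edge_sum _ _ _ fun l _ => (hEdge l).const_mul _
    have h2 := hk.unique h1
    refine ⟨-k, ?_⟩
    rw [integral_chF]
    push_cast
    rw [h2]
    unfold pair Finsupp.sum
    simp only [mul_neg, Finset.sum_neg_distrib, neg_neg]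
  · rw [integral_chF] at hk
    exact ⟨fun_formula hA2 ρ hk, fun i => twist_formula (hB i) (fun l j => hA3 l i j) ρ hk⟩

/-- **The structure of the laws.** -/
theorem law_structure_pos {μ : Measure (Torus n)} (hμ : μ ∈ Laws n) :
    ∃ Ps : List (Piece (Weight n)), Ps.length ≤ 2 ^ n * n.factorial ∧
      (∀ P ∈ Ps, PosDef P.val ∧ 1 ≤ P.val 0) ∧
      (∀ l, ((2 ^ n * n.factorial : ℕ) : ℂ) * four μ l = ((Ps.map fun P => P.val l).sum : ℤ)) ∧
      ∀ f : C(Torus n, ℂ), ((2 ^ n * n.factorial : ℕ) : ℂ) * ∫ y, f y ∂μ =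
        (Ps.map fun P => ∫ y : ann P.Λ, f (y : Torus n) * den P y ∂(hm P.Λ)).sum := by
  classical
  obtain ⟨hp, hW, hint⟩ := hμ
  have hfW : ∀ (w : Weyl n) (l : Weight n), four μ (wact w l) = four μ l := by
    intro w l
    have hm : Measurable (tact (n := n) w) := (continuous_tact w).measurable
    unfold four
    conv_rhs => rw [← hW w]
    rw [integral_map hm.aemeasurable (integrable_chr _ l).aestronglyMeasurable]
    simp only [chr_tact]
  have horb : ∀ l, pair μ (orbit l) = ((2 ^ n * n.factorial : ℕ) : ℂ) * four μ l := by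
    intro l
    unfold pair
    rw [orbit_sum l (four μ)]
    simp only [hfW, Finset.sum_const, Finset.card_univ, nsmul_eq_mul]
    rw [card_weyl]
  have hk : ∀ l : Weight n, ∃ k : ℤ, ((2 ^ n * n.factorial : ℕ) : ℂ) * four μ l = k := by
    intro l
    obtain ⟨k, hk⟩ := hint (orbit l) (orbit_isRep l)
    rw [integral_chF, horb] at hk
    exact ⟨k, hk⟩
  choose ψ hψ using hk
  have hNpos : (0 : ℝ) ≤ ((2 ^ n * n.factorial : ℕ) : ℝ) := Nat.cast_nonneg _
  have hsymm : ∀ l, ψ (-l) = ψ l := by
    intro l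
    have h1 := hψ (-l)
    have h2 : four μ (-l) = conj (four μ l) := by
      unfold four
      rw [← integral_conj]
      congr 1
      funext y
      rw [chr_neg, Circle.coe_inv_eq_conj]
    rw [h2] at h1
    have h3 := congrArg conj (hψ l)
    rw [map_mul, Complex.conj_natCast, h1, map_intCast] at h3
    exact_mod_cast h3
  have hpd : PosDef ψ := by
    intro f
    have e1 : ∀ y : Torus n, Complex.normSq (∑ a ∈ f.support, (f a : ℂ) * (chr y a : ℂ)) =
        ∑ a ∈ f.support, ∑ b ∈ f.support, f a * f b * ((chr y (a - b) : Circle) : ℂ).re := by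
      intro y
      have e2 : ((Complex.normSq (∑ a ∈ f.support, (f a : ℂ) * (chr y a : ℂ)) : ℝ) : ℂ) =
          ∑ a ∈ f.support, ∑ b ∈ f.support, (f a : ℂ) * f b * (chr y (a - b) : ℂ) := by
        rw [← Complex.mul_conj, map_sum, Finset.sum_mul]
        refine Finset.sum_congr rfl fun a _ => ?_
        rw [Finset.mul_sum]
        refine Finset.sum_congr rfl fun b _ => ?_
        rw [map_mul, Complex.conj_ofReal, sub_eq_add_neg, chr_add, chr_neg, Circle.coe_mul,
          Circle.coe_inv_eq_conj]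
        ring
      have e3 := congrArg Complex.re e2
      rw [Complex.ofReal_re] at e3
      rw [e3, Complex.re_sum]
      refine Finset.sum_congr rfl fun a _ => ?_
      rw [Complex.re_sum]
      refine Finset.sum_congr rfl fun b _ => ?_
      rw [← Complex.ofReal_mul, Complex.re_ofReal_mul]
    have hre : ∀ l, ∫ y, ((chr y l : Circle) : ℂ).re ∂μ = (four μ l).re := fun l =>
      integral_re (integrable_chr μ l)
    have h1 : 0 ≤ ∫ y, Complex.normSq (∑ a ∈ f.support, (f a : ℂ) * (chr y a : ℂ)) ∂μ :=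
      integral_nonneg fun y => Complex.normSq_nonneg _
    simp only [e1] at h1
    have hi : ∀ a b, Integrable (fun y : Torus n => f a * f b * ((chr y (a - b) : Circle) : ℂ).re) μ :=
      fun a b => (integrable_chr μ (a - b)).re.const_mul _
    rw [integral_finsetSum _ fun a _ => integrable_finsetSum _ fun b _ => hi a b] at h1
    have h2 : ∀ a, ∫ y, ∑ b ∈ f.support, f a * f b * ((chr y (a - b) : Circle) : ℂ).re ∂μ =
        ∑ b ∈ f.support, f a * f b * (four μ (a - b)).re := by
      intro a
      rw [integral_finsetSum _ fun b _ => hi a b]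
      refine Finset.sum_congr rfl fun b _ => ?_
      rw [integral_const_mul, hre]
    simp only [h2] at h1
    have h3 : (f.sum fun a x => f.sum fun b y => x * y * (ψ (a - b) : ℝ)) =
        ((2 ^ n * n.factorial : ℕ) : ℝ) * ∑ a ∈ f.support, ∑ b ∈ f.support,
          f a * f b * (four μ (a - b)).re := by
      unfold Finsupp.sum
      rw [Finset.mul_sum]
      refine Finset.sum_congr rfl fun a _ => ?_
      rw [Finset.mul_sum]
      refine Finset.sum_congr rfl fun b _ => ?_
      have h4 := congrArg Complex.re (hψ (a - b))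
      rw [Complex.intCast_re] at h4
      beta_reduce
      rw [← h4]
      have h5 : (((2 ^ n * n.factorial : ℕ) : ℂ) * four μ (a - b)).re =
          ((2 ^ n * n.factorial : ℕ) : ℝ) * (four μ (a - b)).re := by
        rw [← Complex.ofReal_natCast, Complex.re_ofReal_mul]
      rw [h5]
      ring
    rw [h3]
    exact mul_nonneg hNpos h1
  obtain ⟨Ps, hPs, hsum⟩ := pieces_of_posDef ψ hsymm hpd
  have hfin : ∀ l, ((2 ^ n * n.factorial : ℕ) : ℂ) * four μ l =
      ((Ps.map fun P => P.val l).sum : ℤ) := fun l => by rw [hψ, hsum]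
  refine ⟨Ps, ?_, hPs, hfin, structure_formula _ hfin⟩
  have h1 := length_le hPs
  have h2 := hfin 0
  have h3 : four μ (0 : Weight n) = 1 := by
    unfold four
    simp [chr_zero]
  rw [h3, mul_one] at h2
  have h4 : ((2 ^ n * n.factorial : ℕ) : ℤ) = (Ps.map fun P => P.val 0).sum := by exact_mod_cast h2
  rw [← h4] at h1
  exact_mod_cast h1

theorem laws_countable (n : ℕ) : (Laws n).Countable := by
  choose Ps _ _ h2 _ using fun μ : Laws n => law_structure_pos μ.2
  have hinj : Function.Injective Ps := by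
    intro μ ν h
    have hp := μ.2.1
    have hq := ν.2.1
    refine Subtype.ext (measure_ext fun l => ?_)
    have h3 := h2 μ l
    have h4 := h2 ν l
    rw [h, ← h4] at h3
    have h5 : (((2 ^ n * n.factorial : ℕ) : ℂ)) ≠ 0 := by
      have : 2 ^ n * n.factorial ≠ 0 := (Nat.mul_pos (by positivity) (Nat.factorial_pos n)).ne'
      exact_mod_cast this
    exact mul_left_cancel₀ h5 h3
  have : Countable (Laws n) := hinj.countable
  exact Set.countable_coe_iff.1 this

end Pool.Agent.H4.ST
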