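import Pool.Agent.H4.ST.Law

/-! Existence and uniqueness of the limit distribution. -/

set_option autoImplicit false

namespace Pool.Agent.H4.ST

open Pool.Agent.H70.CS Filter Topology MeasureTheory Complex

variable {n : ℕ}

/-- `μ` is invariant under the Weyl group -/
def WInv (μ : Measure (Torus n)) : Prop := ∀ w : Weyl n, μ.map (tact w) = μ

/-- the Weyl orbit of a weight, with multiplicities -/
noncomputable def orbit (l : Weight n) : Weight n →₀ ℤ := ∑ w : Weyl n, Finsupp.single (wact w l) 1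

/-- the multiplicities are invariant under the Weyl group -/
def IsRep (ρ : Weight n →₀ ℤ) : Prop := ∀ w l, ρ (wact w l) = ρ l

lemma orbit_isRep (l : Weight n) : IsRep (orbit l) := by
  classical
  intro w' ν
  unfold orbit
  rw [Finsupp.finsetSum_apply, Finsupp.finsetSum_apply]
  rw [← Fintype.sum_bijective (wmul w') (wmul_bijective_left w')
    (fun w => (Finsupp.single (wact (wmul w' w) l) 1 : Weight n →₀ ℤ) (wact w' ν))
    (fun w => (Finsupp.single (wact w l) 1 : Weight n →₀ ℤ) (wact w' ν)) (fun w => rfl)]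
  refine Finset.sum_congr rfl fun w _ => ?_
  rw [wact_wmul, Finsupp.single_apply, Finsupp.single_apply]
  simp only [(wact_bijective w').1.eq_iff]

lemma orbit_sum (l : Weight n) (f : Weight n → ℂ) :
    ((orbit l).sum fun ν c => (c : ℂ) * f ν) = ∑ w : Weyl n, f (wact w l) := by
  classical
  unfold orbit
  rw [← Finsupp.sum_finsetSum_index]
  · simp
  · intro a; simp
  · intro a b c; push_cast; rw [add_mul]

/-- averaging over the Weyl group -/
lemma rep_sum {ρ : Weight n →₀ ℤ} (hρ : IsRep ρ) (f : Weight n → ℂ) :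
    (Fintype.card (Weyl n) : ℂ) * (ρ.sum fun ν c => (c : ℂ) * f ν) =
      ρ.sum fun μ c => (c : ℂ) * ∑ w : Weyl n, f (wact w μ) := by
  classical
  have h1 : ∀ w : Weyl n, (ρ.sum fun ν c => (c : ℂ) * f ν) =
      ρ.sum fun μ c => (c : ℂ) * f (wact w μ) := by
    intro w
    unfold Finsupp.sum
    symm
    refine Finset.sum_bijective (wact w) (wact_bijective w) (fun μ => ?_) (fun μ _ => ?_)
    · rw [Finsupp.mem_support_iff, Finsupp.mem_support_iff, hρ]
    · rw [hρ]
  have h2 : (ρ.sum fun μ c => (c : ℂ) * ∑ w : Weyl n, f (wact w μ)) =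
      ∑ w : Weyl n, ρ.sum fun μ c => (c : ℂ) * f (wact w μ) := by
    unfold Finsupp.sum
    rw [Finset.sum_comm]
    refine Finset.sum_congr rfl fun μ _ => ?_
    beta_reduce
    rw [Finset.mul_sum]
  rw [h2, ← Finset.sum_congr rfl fun w _ => h1 w, Finset.sum_const, nsmul_eq_mul]
  congr 2

/-- the weighted means of a continuous function along the family -/
noncomputable def MM (A : Nat.Primes → Torus n) (f : C(Torus n, ℂ)) (σ : ℝ) : ℂ :=
  mn (fun p => avg f (A p)) σ

lemma MM_add (A : Nat.Primes → Torus n) (f g : C(Torus n, ℂ)) {σ : ℝ} (hσ : 1 < σ) :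
    MM A (f + g) σ = MM A f σ + MM A g σ := by
  unfold MM
  rw [← mn_add (fun p => norm_avg_le f (A p)) (fun p => norm_avg_le g (A p)) hσ]
  congr 1
  funext p
  rw [avg_add]; rfl

lemma MM_smul (A : Nat.Primes → Torus n) (c : ℂ) (f : C(Torus n, ℂ)) (σ : ℝ) :
    MM A (c • f) σ = c * MM A f σ := by
  unfold MM
  rw [← mn_smul]
  congr 1
  funext p
  rw [avg_smul]; rfl

lemma norm_MM_le (A : Nat.Primes → Torus n) (f : C(Torus n, ℂ)) {σ : ℝ} (hσ : 1 < σ) :
    ‖MM A f σ‖ ≤ ‖f‖ := norm_mn_le (fun p => norm_avg_le f (A p)) hσ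

lemma MM_sub (A : Nat.Primes → Torus n) (f g : C(Torus n, ℂ)) {σ : ℝ} (hσ : 1 < σ) :
    MM A f σ - MM A g σ = MM A (f - g) σ := by
  have h1 : f - g = f + (-1 : ℂ) • g := by rw [neg_one_smul, sub_eq_add_neg]
  rw [h1, MM_add A _ _ hσ, MM_smul]
  ring

/-- real functions as complex ones -/
noncomputable def toC (f : C(Torus n, ℝ)) : C(Torus n, ℂ) :=
  ⟨fun y => ((f y : ℝ) : ℂ), Complex.continuous_ofReal.comp f.continuous⟩

lemma toC_apply (f : C(Torus n, ℝ)) (y : Torus n) : toC f y = ((f y : ℝ) : ℂ) := rfl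

lemma avg_toC (f : C(Torus n, ℝ)) (y : Torus n) : avg (toC f) y =
    ((((Fintype.card (Weyl n) : ℝ))⁻¹ * ∑ w : Weyl n, f (tact w y) : ℝ) : ℂ) := by
  rw [avg_apply]
  simp only [toC_apply]
  push_cast
  rfl

lemma MM_real (A : Nat.Primes → Torus n) (f : C(Torus n, ℝ)) (σ : ℝ) :
    ∃ r : ℝ, MM A (toC f) σ = r := by
  unfold MM
  simp only [avg_toC]
  exact ⟨_, mn_ofReal _ σ⟩

lemma MM_nonneg (A : Nat.Primes → Torus n) {f : C(Torus n, ℝ)} (hf : ∀ y, 0 ≤ f y) {σ : ℝ}
    (hσ : 1 < σ) : 0 ≤ (MM A (toC f) σ).re := by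
  unfold MM
  simp only [avg_toC]
  rw [mn_ofReal, Complex.ofReal_re]
  refine div_nonneg (tsum_nonneg fun p => mul_nonneg ?_ (pw_pos σ p).le) (PP_pos hσ).le
  exact mul_nonneg (inv_nonneg.2 (Nat.cast_nonneg _)) (Finset.sum_nonneg fun w _ => hf _)

/-- real and imaginary parts -/
noncomputable def reC (f : C(Torus n, ℂ)) : C(Torus n, ℝ) :=
  ⟨fun y => (f y).re, Complex.continuous_re.comp f.continuous⟩

noncomputable def imC (f : C(Torus n, ℂ)) : C(Torus n, ℝ) :=
  ⟨fun y => (f y).im, Complex.continuous_im.comp f.continuous⟩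

lemma re_im_C (f : C(Torus n, ℂ)) : f = toC (reC f) + Complex.I • toC (imC f) := by
  ext y
  simp only [ContinuousMap.add_apply, ContinuousMap.smul_apply, toC_apply, smul_eq_mul]
  show f y = (((f y).re : ℝ) : ℂ) + Complex.I * (((f y).im : ℝ) : ℂ)
  rw [mul_comm, Complex.re_add_im]

/-- **Existence of the law.** -/
theorem exists_law (A : Nat.Primes → Torus n) (κ : Weight n → ℂ)
    (h : ∀ l, Tendsto (fun σ => MM A (chC l) σ) (𝓝[>] 1) (𝓝 (κ l))) :
    ∃ μ : Measure (Torus n), IsProbabilityMeasure μ ∧ WInv μ ∧ (∀ l, four μ l = κ l) ∧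
      ∀ f : C(Torus n, ℂ), Tendsto (fun σ => MM A f σ) (𝓝[>] 1) (𝓝 (∫ y, f y ∂μ)) := by
  classical
  let U : Ultrafilter ℝ := Ultrafilter.of (𝓝[>] (1 : ℝ))
  have hU : (U : Filter ℝ) ≤ 𝓝[>] (1 : ℝ) := Ultrafilter.of_le _
  have h1U : ∀ᶠ σ in (U : Filter ℝ), 1 < σ := hU self_mem_nhdsWithin
  have hlim : ∀ f : C(Torus n, ℝ), ∃ r : ℝ, Tendsto (fun σ => (MM A (toC f) σ).re) U (𝓝 r) := by
    intro f
    have h2 : ((U.map fun σ => (MM A (toC f) σ).re : Ultrafilter ℝ) : Filter ℝ) ≤
        𝓟 (Set.Icc (-‖toC f‖) ‖toC f‖) := by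
      rw [le_principal_iff]
      have h3 : ∀ᶠ σ in (U : Filter ℝ), (MM A (toC f) σ).re ∈ Set.Icc (-‖toC f‖) ‖toC f‖ := by
        filter_upwards [h1U] with σ hσ
        exact abs_le.1 ((Complex.abs_re_le_norm _).trans (norm_MM_le A _ hσ))
      exact h3
    obtain ⟨r, -, hr⟩ := isCompact_Icc.ultrafilter_le_nhds _ h2
    exact ⟨r, hr⟩
  choose Λ hΛ using hlim
  have hΛ' : ∀ f, Tendsto (fun σ => MM A (toC f) σ) U (𝓝 ((Λ f : ℝ) : ℂ)) := by
    intro f
    refine ((Complex.continuous_ofReal.tendsto _).comp (hΛ f)).congr fun σ => ?_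
    obtain ⟨r, hr⟩ := MM_real A f σ
    show (((MM A (toC f) σ).re : ℝ) : ℂ) = _
    rw [hr, Complex.ofReal_re]
  have hadd : ∀ f g, Λ (f + g) = Λ f + Λ g := by
    intro f g
    refine tendsto_nhds_unique (hΛ (f + g)) (((hΛ f).add (hΛ g)).congr' ?_)
    filter_upwards [h1U] with σ hσ
    have e : toC (f + g) = toC f + toC g := by
      ext y
      simp only [ContinuousMap.add_apply, toC_apply, Complex.ofReal_add]
    rw [e, MM_add A _ _ hσ, Complex.add_re]
  have hsmul : ∀ (c : ℝ) f, Λ (c • f) = c * Λ f := by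
    intro c f
    refine tendsto_nhds_unique (hΛ (c • f)) (((hΛ f).const_mul c).congr fun σ => ?_)
    have e : toC (c • f) = (c : ℂ) • toC f := by
      ext y
      simp only [ContinuousMap.smul_apply, toC_apply, smul_eq_mul, Complex.ofReal_mul]
    rw [e, MM_smul, Complex.re_ofReal_mul]
  have hpos : ∀ f : C(Torus n, ℝ), (∀ y, 0 ≤ f y) → 0 ≤ Λ f := by
    intro f hf
    refine ge_of_tendsto (hΛ f) ?_
    filter_upwards [h1U] with σ hσ
    exact MM_nonneg A hf hσ
  have hmono : ∀ f g, f ≤ g → Λ f ≤ Λ g := by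
    intro f g hfg
    have h2 := hpos (g - f) fun y => sub_nonneg.2 (hfg y)
    have h3 : g = f + (g - f) := by rw [add_sub_cancel]
    rw [h3, hadd]
    linarith
  have hone : Λ 1 = 1 := by
    refine tendsto_nhds_unique (hΛ 1) (tendsto_const_nhds.congr' ?_)
    filter_upwards [h1U] with σ hσ
    have e : toC (1 : C(Torus n, ℝ)) = 1 := by
      ext y
      simp [toC_apply]
    rw [e]
    unfold MM
    have h2 : (fun p => avg (1 : C(Torus n, ℂ)) (A p)) = fun _ => (1 : ℂ) := by
      funext p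
      exact avg_inv (fun _ _ => rfl) _
    rw [h2, mn_one hσ, Complex.one_re]
  obtain ⟨μ, hμ, hint⟩ := exists_measure Λ hadd hsmul hmono hone
  have hUint : ∀ f : C(Torus n, ℂ), Tendsto (fun σ => MM A f σ) U (𝓝 (∫ y, f y ∂μ)) := by
    intro f
    have h2 : (∫ y, f y ∂μ) = ((Λ (reC f) : ℝ) : ℂ) + Complex.I * ((Λ (imC f) : ℝ) : ℂ) := by
      rw [← hint, ← hint, ← integral_complex_ofReal, ← integral_complex_ofReal,
        ← integral_const_mul, ← integral_add (f := fun y => ((reC f y : ℝ) : ℂ))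
          (g := fun y => Complex.I * ((imC f y : ℝ) : ℂ)) (integrable_cont μ (toC (reC f)))
          ((integrable_cont μ (toC (imC f))).const_mul _)]
      refine integral_congr_ae (Eventually.of_forall fun y => ?_)
      have := congrArg (fun g : C(Torus n, ℂ) => g y) (re_im_C f)
      exact this
    rw [h2]
    refine ((hΛ' (reC f)).add ((hΛ' (imC f)).const_mul Complex.I)).congr' ?_
    filter_upwards [h1U] with σ hσ
    rw [← MM_smul, ← MM_add A _ _ hσ, ← re_im_C]
  have hfour : ∀ l, four μ l = κ l := fun l =>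
    tendsto_nhds_unique (hUint (chC l)) ((h l).mono_left hU)
  refine ⟨μ, hμ, fun w => ?_, hfour, ?_⟩
  · have hm : Measurable (tact (n := n) w) := (continuous_tact w).measurable
    have : IsProbabilityMeasure (μ.map (tact w)) :=
      Measure.isProbabilityMeasure_map hm.aemeasurable
    refine measure_ext fun l => ?_
    rw [integral_map hm.aemeasurable (integrable_chr _ l).aestronglyMeasurable]
    have h2 := hUint (chC l)
    have h3 := hUint ((chC l).comp ⟨tact w, continuous_tact w⟩)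
    have h4 : (fun σ => MM A ((chC l).comp ⟨tact w, continuous_tact w⟩) σ) =
        fun σ => MM A (chC l) σ := by
      funext σ
      unfold MM
      rw [avg_comp]
    rw [h4] at h3
    exact tendsto_nhds_unique h3 h2
  · refine induction_chr ?_ ?_ ?_ ?_
    · refine isClosed_lim (fun σ f => MM A f σ) (fun f => ∫ y, f y ∂μ) ?_
        (norm_integral_sub_le μ)
      filter_upwards [self_mem_nhdsWithin] with σ hσ f g
      rw [MM_sub A f g hσ]
      exact norm_MM_le A _ hσ
    · intro f g hf hg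
      have h2 : (∫ y, (f + g) y ∂μ) = (∫ y, f y ∂μ) + ∫ y, g y ∂μ :=
        integral_add (integrable_cont μ f) (integrable_cont μ g)
      rw [h2]
      refine (hf.add hg).congr' ?_
      filter_upwards [self_mem_nhdsWithin] with σ hσ
      rw [MM_add A f g hσ]
    · intro c f hf
      have h2 : (∫ y, (c • f) y ∂μ) = c * ∫ y, f y ∂μ := integral_const_mul c _
      rw [h2]
      refine (hf.const_mul c).congr fun σ => ?_
      rw [MM_smul]
    · intro l
      have h2 : (∫ y, chC l y ∂μ) = κ l := hfour l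
      rw [h2]
      exact h l

/-- uniqueness -/
theorem law_unique {μ ν : Measure (Torus n)} [IsProbabilityMeasure μ]
    [IsProbabilityMeasure ν] (hμ : WInv μ) (hν : WInv ν)
    (h : ∀ f : C(Torus n, ℂ), (∀ w y, f (tact w y) = f y) → ∫ y, f y ∂μ = ∫ y, f y ∂ν) : μ = ν := by
  have key : ∀ (κ : Measure (Torus n)) [IsProbabilityMeasure κ], WInv κ → ∀ f : C(Torus n, ℂ),
      ∫ y, avg f y ∂κ = ∫ y, f y ∂κ := by
    intro κ _ hκ f
    have h1 : ∀ w : Weyl n, ∫ y, f (tact w y) ∂κ = ∫ y, f y ∂κ := by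
      intro w
      have hm : Measurable (tact (n := n) w) := (continuous_tact w).measurable
      conv_rhs => rw [← hκ w]
      rw [integral_map hm.aemeasurable f.continuous.aestronglyMeasurable]
    simp only [avg_apply]
    rw [integral_const_mul, integral_finsetSum]
    · simp only [h1, Finset.sum_const, Finset.card_univ, nsmul_eq_mul]
      rw [inv_mul_cancel_left₀ card_ne]
    · intro w _
      exact integrable_cont κ (f.comp ⟨tact w, continuous_tact w⟩)
  have havg : ∀ (f : C(Torus n, ℂ)) (w : Weyl n) (y : Torus n), avg f (tact w y) = avg f y := by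
    intro f w y
    rw [avg_apply, avg_apply]
    congr 1
    rw [← Fintype.sum_bijective (fun w' : Weyl n => wmul w w') (wmul_bijective_left w)
      (fun w' => f (tact (wmul w w') y)) (fun w' => f (tact w' y)) (fun w' => rfl)]
    refine Finset.sum_congr rfl fun w' _ => ?_
    rw [tact_wmul]
  refine measure_ext fun l => ?_
  have h1 := key μ hμ (chC l)
  have h2 := key ν hν (chC l)
  have h3 := h (avg (chC l)) (havg (chC l))
  rw [h1, h2] at h3
  exact h3

end Pool.Agent.H4.ST
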