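import Pool.Agent.H4.ST.Pos

/-! The final form of the structure theorem; infinitely many laws. -/

set_option autoImplicit false

namespace Pool.Agent.H4.ST

open Pool.Agent.H70.CS Filter Topology MeasureTheory Complex Pool.Agent.H4.Coset ComplexConjugate

variable {n : ℕ}

/-- **The structure of the laws**, with non-negative densities. -/
theorem law_structure' {μ : Measure (Torus n)} (hμ : μ ∈ Laws n) :
    ∃ Ps : List (Piece (Weight n)), Ps.length ≤ 2 ^ n * n.factorial ∧
      (∀ P ∈ Ps, (∀ y ∈ ann P.Λ, 0 ≤ (den P y).re) ∧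
        1 ≤ ∫ y : ann P.Λ, (den P y).re ∂(hm P.Λ)) ∧
      ∀ f : C(Torus n, ℝ), ((2 ^ n * n.factorial : ℕ) : ℝ) * ∫ y, f y ∂μ =
        (Ps.map fun P => ∫ y : ann P.Λ, f (y : Torus n) * (den P y).re ∂(hm P.Λ)).sum := by
  classical
  obtain ⟨hp, hW, hint⟩ := hμ
  obtain ⟨Ps, h1, h2, h3, h4⟩ : ∃ Ps : List (Piece (Weight n)), Ps.length ≤ 2 ^ n * n.factorial ∧
      (∀ P ∈ Ps, PosDef P.val ∧ 1 ≤ P.val 0) ∧
      (∀ l, ((2 ^ n * n.factorial : ℕ) : ℂ) * four μ l = ((Ps.map fun P => P.val l).sum : ℤ)) ∧
      ∀ f : C(Torus n, ℂ), ((2 ^ n * n.factorial : ℕ) : ℂ) * ∫ y, f y ∂μ =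
        (Ps.map fun P => ∫ y : ann P.Λ, f (y : Torus n) * den P y ∂(hm P.Λ)).sum :=
    law_structure_pos ⟨hp, hW, hint⟩
  refine ⟨Ps, h1, fun P hP => ⟨fun y hy => den_nonneg P (h2 P hP).1 hy, ?_⟩, fun f => ?_⟩
  · have h5 := integral_re_den P 1 0
    simp only [one_mul, chr_zero, Circle.coe_one] at h5
    rw [h5, Complex.intCast_re]
    exact_mod_cast (h2 P hP).2
  · have h5 := congrArg Complex.re (h4 (toC f))
    have h6 : (∫ y, toC f y ∂μ) = ((∫ y, f y ∂μ : ℝ) : ℂ) := integral_complex_ofReal
    rw [h6] at h5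
    have h7 : ((((2 ^ n * n.factorial : ℕ) : ℂ) * ((∫ y, f y ∂μ : ℝ) : ℂ))).re =
        ((2 ^ n * n.factorial : ℕ) : ℝ) * ∫ y, f y ∂μ := by
      rw [← Complex.ofReal_natCast, Complex.re_ofReal_mul, Complex.ofReal_re]
    rw [h7] at h5
    rw [h5]
    have h8 : ∀ L : List (Piece (Weight n)),
        ((L.map fun P => ∫ y : ann P.Λ, toC f (y : Torus n) * den P y ∂(hm P.Λ)).sum).re =
        (L.map fun P => ∫ y : ann P.Λ, f (y : Torus n) * (den P y).re ∂(hm P.Λ)).sum := by
      intro L
      induction L with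
      | nil => simp
      | cons P L ih =>
        rw [List.map_cons, List.sum_cons, Complex.add_re, ih, List.map_cons, List.sum_cons]
        congr 1
        have hc : Continuous fun y : Torus n => toC f y * den P y :=
          (toC f).continuous.mul (continuous_den P)
        have h9 : ∫ y : ann P.Λ, (toC f (y : Torus n) * den P y).re ∂(hm P.Λ) =
            (∫ y : ann P.Λ, toC f (y : Torus n) * den P y ∂(hm P.Λ)).re :=
          integral_re (integrable_ann P.Λ hc)
        rw [← h9]
        refine integral_congr_ae (Eventually.of_forall fun y => ?_)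
        show (toC f (y : Torus n) * den P y).re = f (y : Torus n) * (den P y).re
        rw [toC_apply, Complex.re_ofReal_mul]
    exact h8 Ps

/-- the law of the `m`-torsion points -/
noncomputable def tors (n m : ℕ) : AddSubgroup (Weight n) := (zsmulAddGroupHom (m : ℤ)).range

lemma mem_tors {m : ℕ} {l : Weight n} : l ∈ tors n m ↔ ∃ v : Weight n, (m : ℤ) • v = l := Iff.rfl

noncomputable def tlaw (n m : ℕ) : Measure (Torus n) := (hm (tors n m)).map Subtype.val

instance (m : ℕ) : IsProbabilityMeasure (tlaw n m) :=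
  Measure.isProbabilityMeasure_map measurable_subtype_coe.aemeasurable

open scoped Classical in
lemma four_tlaw (m : ℕ) (l : Weight n) : four (tlaw n m) l = if l ∈ tors n m then 1 else 0 := by
  unfold four tlaw
  rw [integral_map measurable_subtype_coe.aemeasurable (integrable_chr _ l).aestronglyMeasurable]
  exact integral_chr _ _

lemma wact_zsmul (w : Weyl n) (k : ℤ) (l : Weight n) : wact w (k • l) = k • wact w l := by
  unfold wact
  ext i
  · rfl
  · simp only [Prod.smul_fst, Prod.smul_snd, Pi.smul_apply, smul_eq_mul]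
    split_ifs <;> ring

lemma wact_mem_tors (w : Weyl n) (m : ℕ) (l : Weight n) : wact w l ∈ tors n m ↔ l ∈ tors n m := by
  rw [mem_tors, mem_tors]
  constructor
  · rintro ⟨v, hv⟩
    obtain ⟨u, rfl⟩ := (wact_bijective w).2 v
    rw [← wact_zsmul] at hv
    exact ⟨u, (wact_bijective w).1 hv⟩
  · rintro ⟨v, rfl⟩
    exact ⟨wact w v, (wact_zsmul w _ v).symm⟩

lemma tlaw_mem (m : ℕ) : tlaw n m ∈ Laws n := by
  classical
  refine ⟨inferInstance, fun w => ?_, fun ρ _ => ?_⟩
  · have hm' : Measurable (tact (n := n) w) := (continuous_tact w).measurable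
    have : IsProbabilityMeasure ((tlaw n m).map (tact w)) :=
      Measure.isProbabilityMeasure_map hm'.aemeasurable
    refine measure_ext fun l => ?_
    rw [integral_map hm'.aemeasurable (integrable_chr _ l).aestronglyMeasurable]
    simp only [chr_tact]
    have h1 := four_tlaw (n := n) m (wact w l)
    have h2 := four_tlaw (n := n) m l
    unfold four at h1 h2
    rw [h1, h2]
    simp only [wact_mem_tors]
  · rw [integral_chF]
    unfold pair
    simp only [four_tlaw]
    refine ⟨ρ.sum fun l k => if l ∈ tors n m then k else 0, ?_⟩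
    unfold Finsupp.sum
    push_cast
    refine Finset.sum_congr rfl fun l _ => ?_
    split_ifs <;> simp

theorem laws_infinite (n : ℕ) : (Laws n).Infinite := by
  classical
  have hinj : Function.Injective fun m : ℕ => tlaw n (m + 1) := by
    intro a b hab
    have hab' : tlaw n (a + 1) = tlaw n (b + 1) := hab
    have key : ∀ a b : ℕ, tlaw n (a + 1) = tlaw n (b + 1) → (b + 1 : ℤ) ∣ (a + 1 : ℤ) := by
      intro a b h
      have h1 := four_tlaw (n := n) (a + 1) (((a + 1 : ℕ) : ℤ) • (1, 0))
      rw [h, four_tlaw, if_pos (mem_tors.2 ⟨(1, 0), rfl⟩)] at h1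
      by_contra hn
      rw [if_neg] at h1
      · exact zero_ne_one h1
      · intro hm
        rw [mem_tors] at hm
        obtain ⟨v, hv⟩ := hm
        have h2 := congrArg Prod.fst hv
        simp only [Prod.smul_fst, smul_eq_mul] at h2
        refine hn ⟨v.1, ?_⟩
        push_cast at h2
        linarith
    have h1 := Int.le_of_dvd (by positivity) (key a b hab')
    have h2 := Int.le_of_dvd (by positivity) (key b a hab'.symm)
    omega
  exact Set.infinite_of_injective_forall_mem hinj fun m => tlaw_mem (m + 1)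

end Pool.Agent.H4.ST
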