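import Pool.Agent.H4.ST.Tor

/-! A greedy sequence with a prescribed distribution and square root errors. -/

set_option autoImplicit false

namespace Pool.Agent.H4.ST

open Pool.Agent.H70.CS Filter Topology MeasureTheory ComplexConjugate

variable {n : ℕ}

/-- the Fourier coefficient -/
noncomputable def four (μ : Measure (Torus n)) (l : Weight n) : ℂ := ∫ y, (chr y l : ℂ) ∂μ

lemma norm_four_le (μ : Measure (Torus n)) [IsProbabilityMeasure μ] (l : Weight n) :
    ‖four μ l‖ ≤ 1 := by
  unfold four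
  refine (norm_integral_le_of_norm_le_const (C := 1) (Eventually.of_forall fun y => ?_)).trans ?_
  · rw [Circle.norm_coe]
  · simp

lemma integrable_chr (μ : Measure (Torus n)) [IsFiniteMeasure μ] (l : Weight n) :
    Integrable (fun y => (chr y l : ℂ)) μ := integrable_cont μ (chC l)

section step

variable {I : Type} [Countable I] (μ : Measure (Torus n)) [IsProbabilityMeasure μ]
  (w : I → ℝ) (hw0 : ∀ i, 0 ≤ w i) (hw : Summable w) (L : I → Weight n)

include hw0 hw

lemma step_term (l : Weight n) (D t : ℂ) (ht : ‖t‖ ≤ 1) :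
    ∫ y, ‖D + ((chr y l : ℂ) - four μ l) * t‖ ^ 2 ∂μ ≤ ‖D‖ ^ 2 + 4 := by
  have h1 : ∀ y : Torus n, ‖D + ((chr y l : ℂ) - four μ l) * t‖ ^ 2 =
      ‖D‖ ^ 2 + 2 * ((conj D * t) * ((chr y l : ℂ) - four μ l)).re +
        ‖((chr y l : ℂ) - four μ l) * t‖ ^ 2 := by
    intro y
    have e1 : ∀ a b : ℂ, ‖a + b‖ ^ 2 = ‖a‖ ^ 2 + 2 * (conj a * b).re + ‖b‖ ^ 2 := by
      intro a b
      rw [← Complex.normSq_eq_norm_sq, ← Complex.normSq_eq_norm_sq, ← Complex.normSq_eq_norm_sq,
        Complex.normSq_add]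
      have : (a * conj b).re = (conj a * b).re := by
        rw [← Complex.conj_re (a * conj b), map_mul, Complex.conj_conj]
      rw [this]; ring
    rw [e1, ← mul_assoc (conj D), mul_right_comm (conj D)]
  have h2 : ∀ y : Torus n, ‖D + ((chr y l : ℂ) - four μ l) * t‖ ^ 2 ≤
      ‖D‖ ^ 2 + 2 * ((conj D * t) * ((chr y l : ℂ) - four μ l)).re + 4 := by
    intro y
    rw [h1 y]
    have h3 : ‖((chr y l : ℂ) - four μ l) * t‖ ≤ 2 := by
      rw [norm_mul]
      have h4 : ‖(chr y l : ℂ) - four μ l‖ ≤ 2 := by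
        refine (norm_sub_le _ _).trans ?_
        rw [Circle.norm_coe]
        have := norm_four_le μ l
        linarith
      calc ‖(chr y l : ℂ) - four μ l‖ * ‖t‖ ≤ 2 * 1 :=
            mul_le_mul h4 ht (norm_nonneg _) (by norm_num)
        _ = 2 := by norm_num
    have h5 : ‖((chr y l : ℂ) - four μ l) * t‖ ^ 2 ≤ 2 ^ 2 :=
      pow_le_pow_left₀ (norm_nonneg _) h3 2
    linarith
  have hi1 : Integrable (fun y : Torus n => (conj D * t) * ((chr y l : ℂ) - four μ l)) μ :=
    ((integrable_chr μ l).sub (integrable_const _)).const_mul _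
  have hi2 : Integrable (fun y : Torus n => ((conj D * t) * ((chr y l : ℂ) - four μ l)).re) μ :=
    hi1.re
  have hi3 : Integrable (fun y : Torus n => ‖D‖ ^ 2 +
      2 * ((conj D * t) * ((chr y l : ℂ) - four μ l)).re + 4) μ :=
    ((integrable_const _).add (hi2.const_mul 2)).add (integrable_const _)
  have hzero : ∫ y : Torus n, ((conj D * t) * ((chr y l : ℂ) - four μ l)).re ∂μ = 0 := by
    have h6 : ∫ y : Torus n, ((conj D * t) * ((chr y l : ℂ) - four μ l)).re ∂μ =
        (∫ y : Torus n, (conj D * t) * ((chr y l : ℂ) - four μ l) ∂μ).re := integral_re hi1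
    rw [h6, integral_const_mul, integral_sub (integrable_chr μ l) (integrable_const _)]
    unfold four
    simp
  calc ∫ y, ‖D + ((chr y l : ℂ) - four μ l) * t‖ ^ 2 ∂μ
      ≤ ∫ y : Torus n, (‖D‖ ^ 2 + 2 * ((conj D * t) * ((chr y l : ℂ) - four μ l)).re + 4) ∂μ := by
        refine integral_mono_of_nonneg (Eventually.of_forall fun y => by positivity) hi3
          (Eventually.of_forall h2)
    _ = ‖D‖ ^ 2 + 4 := by
        have e2 : (fun y : Torus n => ‖D‖ ^ 2 +
            2 * ((conj D * t) * ((chr y l : ℂ) - four μ l)).re + 4) =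
            fun y : Torus n => (‖D‖ ^ 2 + 4) +
              2 * ((conj D * t) * ((chr y l : ℂ) - four μ l)).re := by
          funext y; ring
        rw [e2, integral_add (f := fun _ : Torus n => ‖D‖ ^ 2 + 4)
          (g := fun y : Torus n => 2 * ((conj D * t) * ((chr y l : ℂ) - four μ l)).re)
          (integrable_const _) (hi2.const_mul 2), integral_const_mul, hzero]
        simp

theorem exists_step (D t : I → ℂ) {B : ℝ} (hD : ∀ i, ‖D i‖ ≤ B) (ht : ∀ i, ‖t i‖ ≤ 1) :
    ∃ y : Torus n, ∑' i, w i * ‖D i + ((chr y (L i) : ℂ) - four μ (L i)) * t i‖ ^ 2 ≤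
      ∑' i, w i * ‖D i‖ ^ 2 + 4 * ∑' i, w i := by
  by_cases hI : Nonempty I
  swap
  · rw [not_nonempty_iff] at hI
    exact ⟨1, by simp⟩
  have hB : 0 ≤ B := (norm_nonneg _).trans (hD hI.some)
  set F : I → Torus n → ℝ := fun i y =>
    w i * ‖D i + ((chr y (L i) : ℂ) - four μ (L i)) * t i‖ ^ 2 with hF
  have hFb : ∀ i y, ‖F i y‖ ≤ w i * (B + 2) ^ 2 := by
    intro i y
    rw [hF]
    simp only
    rw [norm_mul, Real.norm_of_nonneg (hw0 i), Real.norm_of_nonneg (by positivity)]
    refine mul_le_mul_of_nonneg_left (pow_le_pow_left₀ (norm_nonneg _) ?_ 2) (hw0 i)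
    refine (norm_add_le _ _).trans (add_le_add (hD i) ?_)
    rw [norm_mul]
    have h4 : ‖(chr y (L i) : ℂ) - four μ (L i)‖ ≤ 2 := by
      refine (norm_sub_le _ _).trans ?_
      rw [Circle.norm_coe]
      have := norm_four_le μ (L i)
      linarith
    calc ‖(chr y (L i) : ℂ) - four μ (L i)‖ * ‖t i‖ ≤ 2 * 1 :=
          mul_le_mul h4 (ht i) (norm_nonneg _) (by norm_num)
      _ = 2 := by norm_num
  have hFc : ∀ i, Continuous (F i) := by
    intro i
    rw [hF]
    exact continuous_const.mul ((continuous_const.add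
      (((chC (L i)).continuous.sub continuous_const).mul continuous_const)).norm.pow 2)
  have hFi : ∀ i, Integrable (F i) μ := fun i =>
    Integrable.mono' (integrable_const (w i * (B + 2) ^ 2)) (hFc i).aestronglyMeasurable
      (Eventually.of_forall (hFb i))
  have hsum : Summable fun i => w i * (B + 2) ^ 2 := hw.mul_right _
  have hcont : Continuous fun y => ∑' i, F i y := continuous_tsum hFc hsum hFb
  have hbd : ∀ y, ‖∑' i, F i y‖ ≤ ∑' i, w i * (B + 2) ^ 2 := fun y =>
    tsum_of_norm_bounded hsum.hasSum fun i => hFb i y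
  have hint : Integrable (fun y => ∑' i, F i y) μ :=
    Integrable.mono' (integrable_const _) hcont.aestronglyMeasurable (Eventually.of_forall hbd)
  obtain ⟨y, hy⟩ := exists_le_integral hint
  refine ⟨y, hy.trans ?_⟩
  have hsumi : Summable fun i => ∫ y, ‖F i y‖ ∂μ := by
    refine Summable.of_nonneg_of_le (fun i => integral_nonneg fun y => norm_nonneg _)
      (fun i => ?_) hsum
    calc ∫ y, ‖F i y‖ ∂μ ≤ ∫ _, w i * (B + 2) ^ 2 ∂μ :=
          integral_mono (hFi i).norm (integrable_const _) (hFb i)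
      _ = w i * (B + 2) ^ 2 := by simp
  rw [← integral_tsum_of_summable_integral_norm hFi hsumi]
  have hterm : ∀ i, ∫ y, F i y ∂μ ≤ w i * ‖D i‖ ^ 2 + 4 * w i := by
    intro i
    rw [hF]
    simp only
    rw [integral_const_mul]
    have := step_term μ w hw0 hw (L i) (D i) (t i) (ht i)
    nlinarith [hw0 i]
  have hs1 : Summable fun i => w i * ‖D i‖ ^ 2 := by
    refine Summable.of_nonneg_of_le (fun i => mul_nonneg (hw0 i) (by positivity)) (fun i => ?_)
      (hw.mul_right (B ^ 2))
    exact mul_le_mul_of_nonneg_left (pow_le_pow_left₀ (norm_nonneg _) (hD i) 2) (hw0 i)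
  have hs2 : Summable fun i => ∫ y, F i y ∂μ := by
    refine Summable.of_norm_bounded hsumi fun i => ?_
    exact norm_integral_le_integral_norm _
  calc ∑' i, ∫ y, F i y ∂μ ≤ ∑' i, (w i * ‖D i‖ ^ 2 + 4 * w i) :=
        hs2.tsum_le_tsum hterm (hs1.add (hw.mul_left 4))
    _ = ∑' i, w i * ‖D i‖ ^ 2 + 4 * ∑' i, w i := by
        rw [hs1.tsum_add (hw.mul_left 4), tsum_mul_left]

end step

/-- a summable positive weight -/
lemma exists_weight (I : Type) [Countable I] : ∃ w : I → ℝ, (∀ i, 0 < w i) ∧ Summable w := by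
  obtain ⟨e, he⟩ := exists_injective_nat I
  refine ⟨fun i => (1 / 2) ^ (e i), fun i => by positivity, ?_⟩
  exact (summable_geometric_two).comp_injective he

/-- **The greedy sequence.** -/
theorem exists_seq (μ : Measure (Torus n)) [IsProbabilityMeasure μ] {I : Type} [Countable I]
    (L : I → Weight n) (t : ℕ → I → ℂ) (ht : ∀ q i, ‖t q i‖ ≤ 1) (P : ℕ → Prop) [DecidablePred P] :
    ∃ A : ℕ → Torus n, ∀ i, ∃ C : ℝ, 0 ≤ C ∧ ∀ N : ℕ,
      ‖∑ q ∈ Finset.range N, (if P q then ((chr (A q) (L i) : ℂ) - four μ (L i)) * t q i else 0)‖ ≤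
        C * Real.sqrt (Nat.count P N) := by
  classical
  obtain ⟨w, hw0, hw⟩ := exists_weight I
  let St := {D : I → ℂ // ∃ B, ∀ i, ‖D i‖ ≤ B}
  have hstep : ∀ (q : ℕ) (D : St), ∃ y : Torus n,
      ∑' i, w i * ‖D.1 i + ((chr y (L i) : ℂ) - four μ (L i)) * t q i‖ ^ 2 ≤
        ∑' i, w i * ‖D.1 i‖ ^ 2 + 4 * ∑' i, w i := fun q D => by
    obtain ⟨B, hB⟩ := D.2
    exact exists_step μ w (fun i => (hw0 i).le) hw L D.1 (t q) hB (ht q)
  choose Y hY using hstep
  have hnext : ∀ (q : ℕ) (D : St), ∃ B, ∀ i, ‖D.1 i + (if P q then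
      ((chr (Y q D) (L i) : ℂ) - four μ (L i)) * t q i else 0)‖ ≤ B := by
    intro q D
    obtain ⟨B, hB⟩ := D.2
    refine ⟨B + 2, fun i => (norm_add_le _ _).trans (add_le_add (hB i) ?_)⟩
    split_ifs
    · rw [norm_mul]
      have h4 : ‖(chr (Y q D) (L i) : ℂ) - four μ (L i)‖ ≤ 2 := by
        refine (norm_sub_le _ _).trans ?_
        rw [Circle.norm_coe]
        have := norm_four_le μ (L i)
        linarith
      calc ‖(chr (Y q D) (L i) : ℂ) - four μ (L i)‖ * ‖t q i‖ ≤ 2 * 1 :=
            mul_le_mul h4 (ht q i) (norm_nonneg _) (by norm_num)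
        _ = 2 := by norm_num
    · simp
  let next : ℕ → St → St := fun q D => ⟨fun i => D.1 i + (if P q then
      ((chr (Y q D) (L i) : ℂ) - four μ (L i)) * t q i else 0), hnext q D⟩
  let seq : ℕ → St := fun N => Nat.rec (⟨fun _ => 0, 0, fun i => by simp⟩ : St) next N
  have hseq0 : seq 0 = ⟨fun _ => 0, 0, fun i => by simp⟩ := rfl
  have hseq1 : ∀ N, seq (N + 1) = next N (seq N) := fun N => rfl
  refine ⟨fun q => Y q (seq q), fun i => ?_⟩
  have hval : ∀ N, (seq N).1 i = ∑ q ∈ Finset.range N,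
      (if P q then ((chr (Y q (seq q)) (L i) : ℂ) - four μ (L i)) * t q i else 0) := by
    intro N
    induction N with
    | zero => rw [hseq0]; simp
    | succ N ih => rw [Finset.sum_range_succ, ← ih, hseq1]
  set W := 4 * ∑' i, w i with hW
  have hW0 : 0 ≤ W := mul_nonneg (by norm_num) (tsum_nonneg fun i => (hw0 i).le)
  have hpot : ∀ N, ∑' i, w i * ‖(seq N).1 i‖ ^ 2 ≤ W * Nat.count P N := by
    intro N
    induction N with
    | zero => rw [hseq0]; simp
    | succ N ih =>
      rw [hseq1, Nat.count_succ]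
      by_cases hP : P N
      · have h1 := hY N (seq N)
        have h2 : ∀ i, (next N (seq N)).1 i = (seq N).1 i +
            ((chr (Y N (seq N)) (L i) : ℂ) - four μ (L i)) * t N i := by
          intro i
          show (seq N).1 i + (if P N then _ else 0) = _
          rw [if_pos hP]
        simp only [h2, if_pos hP]
        push_cast
        linarith
      · have h2 : ∀ i, (next N (seq N)).1 i = (seq N).1 i := by
          intro i
          show (seq N).1 i + (if P N then _ else 0) = _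
          rw [if_neg hP, add_zero]
        simp only [h2, if_neg hP, add_zero]
        exact ih
  have hsumm : ∀ N, Summable fun i => w i * ‖(seq N).1 i‖ ^ 2 := by
    intro N
    obtain ⟨B, hB⟩ := (seq N).2
    refine Summable.of_nonneg_of_le (fun i => mul_nonneg (hw0 i).le (by positivity)) (fun i => ?_)
      (hw.mul_right (B ^ 2))
    exact mul_le_mul_of_nonneg_left (pow_le_pow_left₀ (norm_nonneg _) (hB i) 2) (hw0 i).le
  refine ⟨Real.sqrt (W / w i), Real.sqrt_nonneg _, fun N => ?_⟩
  rw [← hval N, ← Real.sqrt_mul (div_nonneg hW0 (hw0 i).le)]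
  refine Real.le_sqrt_of_sq_le ?_
  have h1 : w i * ‖(seq N).1 i‖ ^ 2 ≤ ∑' i, w i * ‖(seq N).1 i‖ ^ 2 :=
    (hsumm N).le_tsum i fun j _ => mul_nonneg (hw0 j).le (by positivity)
  have h2 := h1.trans (hpot N)
  have h3 : W / w i * (Nat.count P N : ℝ) = (W * Nat.count P N) / w i := by ring
  rw [h3, le_div_iff₀ (hw0 i)]
  linarith

end Pool.Agent.H4.ST
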