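import Pool.Agent.H4.ST.Real

/-! Limit distributions of families of Satake classes. -/

set_option autoImplicit false

namespace Pool.Agent.H4.ST

open Pool.Agent.H70.CS Filter Topology MeasureTheory Complex

variable {n : ℕ}

/-- the weight `p^{-σ}` -/
noncomputable def pw (σ : ℝ) (p : Nat.Primes) : ℝ := ((p : ℕ) : ℝ) ^ (-σ)

lemma pw_pos (σ : ℝ) (p : Nat.Primes) : 0 < pw σ p := Real.rpow_pos_of_pos (by exact_mod_cast p.2.pos) _

lemma pw_summable {σ : ℝ} (hσ : 1 < σ) : Summable (pw σ) := summable_primes hσ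

/-- the sum `∑ p^{-σ}` -/
noncomputable def PP (σ : ℝ) : ℝ := ∑' p, pw σ p

lemma PP_pos {σ : ℝ} (hσ : 1 < σ) : 0 < PP σ :=
  (pw_summable hσ).tsum_pos (fun p => (pw_pos σ p).le) ⟨2, Nat.prime_two⟩ (pw_pos σ _)

/-- the weighted mean -/
noncomputable def mn (b : Nat.Primes → ℂ) (σ : ℝ) : ℂ := (∑' p, b p * (pw σ p : ℂ)) / (PP σ : ℂ)

lemma dir_ofReal (b : Nat.Primes → ℂ) (σ : ℝ) : dir b σ = ∑' p, b p * (pw σ p : ℂ) := by
  unfold dir pw
  refine tsum_congr fun p => ?_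
  rw [Complex.ofReal_cpow (Nat.cast_nonneg _)]
  push_cast
  rfl

lemma dir_one (σ : ℝ) : dir (fun _ => 1) σ = (PP σ : ℂ) := by
  rw [dir_ofReal]
  unfold PP
  rw [Complex.ofReal_tsum]
  exact tsum_congr fun p => one_mul _

lemma mn_eq (b : Nat.Primes → ℂ) (σ : ℝ) : mn b σ = dir b σ / dir (fun _ => 1) σ := by
  rw [dir_one, dir_ofReal]; rfl

lemma summable_mn {b : Nat.Primes → ℂ} {M : ℝ} (hb : ∀ p, ‖b p‖ ≤ M) {σ : ℝ} (hσ : 1 < σ) :
    Summable fun p => b p * (pw σ p : ℂ) := by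
  refine Summable.of_norm_bounded ((pw_summable hσ).mul_left M) fun p => ?_
  rw [norm_mul, Complex.norm_real, Real.norm_of_nonneg (pw_pos σ p).le]
  exact mul_le_mul_of_nonneg_right (hb p) (pw_pos σ p).le

lemma mn_add {b c : Nat.Primes → ℂ} {M M' : ℝ} (hb : ∀ p, ‖b p‖ ≤ M) (hc : ∀ p, ‖c p‖ ≤ M')
    {σ : ℝ} (hσ : 1 < σ) : mn (fun p => b p + c p) σ = mn b σ + mn c σ := by
  unfold mn
  rw [← add_div, ← (summable_mn hb hσ).tsum_add (summable_mn hc hσ)]
  simp only [add_mul]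

lemma mn_smul (c : ℂ) (b : Nat.Primes → ℂ) (σ : ℝ) : mn (fun p => c * b p) σ = c * mn b σ := by
  unfold mn
  simp only [mul_assoc]
  rw [tsum_mul_left, mul_div_assoc]

lemma norm_mn_le {b : Nat.Primes → ℂ} {M : ℝ} (hb : ∀ p, ‖b p‖ ≤ M) {σ : ℝ} (hσ : 1 < σ) :
    ‖mn b σ‖ ≤ M := by
  unfold mn
  rw [norm_div, Complex.norm_real, Real.norm_of_nonneg (PP_pos hσ).le, div_le_iff₀ (PP_pos hσ)]
  have h1 : HasSum (fun p => M * pw σ p) (M * PP σ) := (pw_summable hσ).hasSum.mul_left M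
  refine tsum_of_norm_bounded h1 fun p => ?_
  rw [norm_mul, Complex.norm_real, Real.norm_of_nonneg (pw_pos σ p).le]
  exact mul_le_mul_of_nonneg_right (hb p) (pw_pos σ p).le

lemma mn_ofReal (f : Nat.Primes → ℝ) (σ : ℝ) :
    mn (fun p => (f p : ℂ)) σ = (((∑' p, f p * pw σ p) / PP σ : ℝ) : ℂ) := by
  unfold mn
  push_cast
  rfl

lemma mn_one {σ : ℝ} (hσ : 1 < σ) : mn (fun _ => 1) σ = 1 := by
  have h := mn_ofReal (fun _ => 1) σ
  simp only [Complex.ofReal_one, one_mul] at h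
  rw [h]
  have : (∑' p, pw σ p) / PP σ = 1 := div_self (PP_pos hσ).ne'
  rw [this]; simp

/-- the ratio of two edge behaviours -/
lemma tendsto_ratio {f g : ℂ → ℂ} {k : ℂ} (hf : Edge f k) (hg : Edge g (-1)) :
    Tendsto (fun σ : ℝ => f σ / g σ) (𝓝[>] 1) (𝓝 (-k)) := by
  obtain ⟨C, hC⟩ := hf
  obtain ⟨D, hD⟩ := hg
  have h0 : Tendsto (fun σ : ℝ => σ - 1) (𝓝[>] 1) (𝓝[>] 0) := by
    refine tendsto_nhdsWithin_iff.2 ⟨?_, ?_⟩
    · have : Tendsto (fun σ : ℝ => σ - 1) (𝓝 1) (𝓝 (1 - 1)) :=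
        (continuous_id.sub continuous_const).tendsto 1
      rw [sub_self] at this
      exact this.mono_left nhdsWithin_le_nhds
    · filter_upwards [self_mem_nhdsWithin] with σ hσ
      have h3 : (1 : ℝ) < σ := hσ
      show (0 : ℝ) < σ - 1
      linarith
  have hlog : Tendsto (fun σ : ℝ => |Real.log (σ - 1)|) (𝓝[>] 1) atTop :=
    (tendsto_abs_atBot_atTop.comp Real.tendsto_log_nhdsGT_zero).comp h0
  have aux : ∀ {h : ℂ → ℂ} {c : ℂ} {E : ℝ}, (∀ᶠ σ : ℝ in 𝓝[>] 1,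
      ‖h σ - c * (Real.log (σ - 1) : ℝ)‖ ≤ E) →
      Tendsto (fun σ : ℝ => h σ / (Real.log (σ - 1) : ℝ)) (𝓝[>] 1) (𝓝 c) := by
    intro h c E hE
    rw [tendsto_iff_norm_sub_tendsto_zero]
    refine squeeze_zero' (Eventually.of_forall fun σ => norm_nonneg _) ?_
      (hlog.const_div_atTop E)
    filter_upwards [hE, hlog.eventually_gt_atTop 0] with σ h1 h2
    have h3 : ((Real.log (σ - 1) : ℝ) : ℂ) ≠ 0 := by
      have : Real.log (σ - 1) ≠ 0 := abs_pos.1 h2
      exact_mod_cast this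
    have e : h σ / (Real.log (σ - 1) : ℝ) - c = (h σ - c * (Real.log (σ - 1) : ℝ)) /
        (Real.log (σ - 1) : ℝ) := by
      field_simp
    rw [e, norm_div, Complex.norm_real, Real.norm_eq_abs]
    exact div_le_div_of_nonneg_right h1 h2.le
  have h1 := (aux hC).div (aux hD) (by norm_num)
  have h2 : k / -1 = -k := by rw [div_neg, div_one]
  rw [h2] at h1
  refine h1.congr' ?_
  filter_upwards [hlog.eventually_gt_atTop 0] with σ h2
  have h3 : ((Real.log (σ - 1) : ℝ) : ℂ) ≠ 0 := by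
    have : Real.log (σ - 1) ≠ 0 := abs_pos.1 h2
    exact_mod_cast this
  rw [Pi.div_apply, div_div_div_cancel_right₀ h3]

/-- limits of contractions form a closed set -/
lemma isClosed_lim {ι : Type} {l : Filter ι} (M : ι → C(Torus n, ℂ) → ℂ) (L : C(Torus n, ℂ) → ℂ)
    (hM : ∀ᶠ i in l, ∀ f g, ‖M i f - M i g‖ ≤ ‖f - g‖) (hL : ∀ f g, ‖L f - L g‖ ≤ ‖f - g‖) :
    IsClosed {f | Tendsto (fun i => M i f) l (𝓝 (L f))} := by
  refine isClosed_of_closure_subset fun f hf => ?_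
  show Tendsto (fun i => M i f) l (𝓝 (L f))
  rw [Metric.tendsto_nhds]
  intro ε hε
  obtain ⟨g, hg, hfg⟩ := Metric.mem_closure_iff.1 hf (ε / 3) (by positivity)
  have hg' : Tendsto (fun i => M i g) l (𝓝 (L g)) := hg
  rw [Metric.tendsto_nhds] at hg'
  filter_upwards [hM, hg' (ε / 3) (by positivity)] with i h1 h2
  have h3 := h1 f g
  have h4 := hL f g
  rw [dist_eq_norm] at h2 hfg ⊢
  have e : M i f - L f = (M i f - M i g) + (M i g - L g) - (L f - L g) := by ring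
  rw [e]
  calc ‖(M i f - M i g) + (M i g - L g) - (L f - L g)‖
      ≤ ‖M i f - M i g‖ + ‖M i g - L g‖ + ‖L f - L g‖ :=
        (norm_sub_le _ _).trans (add_le_add (norm_add_le _ _) le_rfl)
    _ < ε / 3 + ε / 3 + ε / 3 := by linarith
    _ = ε := by ring

lemma norm_integral_sub_le (μ : Measure (Torus n)) [IsProbabilityMeasure μ] (f g : C(Torus n, ℂ)) :
    ‖(∫ y, f y ∂μ) - ∫ y, g y ∂μ‖ ≤ ‖f - g‖ := by
  rw [← integral_sub (integrable_cont μ f) (integrable_cont μ g)]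
  refine (norm_integral_le_of_norm_le_const (C := ‖f - g‖)
    (Eventually.of_forall fun y => ?_)).trans ?_
  · exact (f - g).norm_coe_le_norm y
  · simp

/-- averages over the Weyl group -/
noncomputable def avg (f : C(Torus n, ℂ)) : C(Torus n, ℂ) :=
  ⟨fun y => ((Fintype.card (Weyl n) : ℂ))⁻¹ * ∑ w : Weyl n, f (tact w y),
    continuous_const.mul (continuous_finsetSum _ fun w _ => f.continuous.comp (continuous_tact w))⟩

lemma avg_apply (f : C(Torus n, ℂ)) (y : Torus n) :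
    avg f y = ((Fintype.card (Weyl n) : ℂ))⁻¹ * ∑ w : Weyl n, f (tact w y) := rfl

lemma card_ne : (Fintype.card (Weyl n) : ℂ) ≠ 0 := by
  have : Fintype.card (Weyl n) ≠ 0 := Fintype.card_ne_zero
  exact_mod_cast this

lemma avg_add (f g : C(Torus n, ℂ)) : avg (f + g) = avg f + avg g := by
  ext y
  simp only [avg_apply, ContinuousMap.add_apply, Finset.sum_add_distrib, mul_add]

lemma avg_smul (c : ℂ) (f : C(Torus n, ℂ)) : avg (c • f) = c • avg f := by
  ext y
  simp only [avg_apply, ContinuousMap.smul_apply, smul_eq_mul, ← Finset.mul_sum]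
  ring

lemma avg_sub (f g : C(Torus n, ℂ)) : avg (f - g) = avg f - avg g := by
  ext y
  simp only [avg_apply, ContinuousMap.sub_apply, Finset.sum_sub_distrib, mul_sub]

lemma norm_avg_le (f : C(Torus n, ℂ)) (y : Torus n) : ‖avg f y‖ ≤ ‖f‖ := by
  rw [avg_apply, norm_mul, norm_inv, Complex.norm_natCast]
  have h0 : (0 : ℝ) < Fintype.card (Weyl n) := by
    have : 0 < Fintype.card (Weyl n) := Fintype.card_pos
    exact_mod_cast this
  rw [inv_mul_le_iff₀ h0]
  refine (norm_sum_le _ _).trans ?_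
  calc ∑ w : Weyl n, ‖f (tact w y)‖ ≤ ∑ _w : Weyl n, ‖f‖ :=
        Finset.sum_le_sum fun w _ => f.norm_coe_le_norm _
    _ = Fintype.card (Weyl n) * ‖f‖ := by simp

lemma avg_inv {f : C(Torus n, ℂ)} (hf : ∀ w y, f (tact w y) = f y) (y : Torus n) :
    avg f y = f y := by
  rw [avg_apply]
  simp only [hf, Finset.sum_const, Finset.card_univ, nsmul_eq_mul]
  rw [inv_mul_cancel_left₀ card_ne]

lemma avg_comp (f : C(Torus n, ℂ)) (w : Weyl n) :
    avg (f.comp ⟨tact w, continuous_tact w⟩) = avg f := by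
  ext y
  simp only [avg_apply, ContinuousMap.comp_apply, ContinuousMap.coe_mk]
  congr 1
  rw [← Fintype.sum_bijective (fun w' : Weyl n => wmul w' w) (wmul_bijective_right w)
    (fun w' => f (tact (wmul w' w) y)) (fun w' => f (tact w' y)) (fun w' => rfl)]
  refine Finset.sum_congr rfl fun w' _ => ?_
  rw [tact_wmul]

lemma avg_chC (l : Weight n) (y : Torus n) : avg (chC l) y =
    ((Fintype.card (Weyl n) : ℂ))⁻¹ * ∑ w : Weyl n, (chr y (wact w l) : ℂ) := by
  rw [avg_apply]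
  simp only [chC_apply, chr_tact]

/-- a positive normalised functional is a probability measure -/
theorem exists_measure (Λ : C(Torus n, ℝ) → ℝ) (hadd : ∀ f g, Λ (f + g) = Λ f + Λ g)
    (hsmul : ∀ (c : ℝ) f, Λ (c • f) = c * Λ f) (hmono : ∀ f g, f ≤ g → Λ f ≤ Λ g)
    (h1 : Λ 1 = 1) : ∃ μ : Measure (Torus n), IsProbabilityMeasure μ ∧
      ∀ f : C(Torus n, ℝ), ∫ y, f y ∂μ = Λ f := by
  let Λ' : CompactlySupportedContinuousMap (Torus n) ℝ →ₚ[ℝ] ℝ :=
  { toFun g := Λ g.toContinuousMap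
    map_add' g g' := hadd _ _
    map_smul' c g := hsmul _ _
    monotone' g g' hgg' := hmono _ _ hgg' }
  have key : ∀ f : C(Torus n, ℝ), ∫ y, f y ∂(RealRMK.rieszMeasure Λ') = Λ f := by
    intro f
    let f' : CompactlySupportedContinuousMap (Torus n) ℝ :=
    { toFun := f
      hasCompactSupport' := HasCompactSupport.of_compactSpace _ }
    exact RealRMK.integral_rieszMeasure Λ' f'
  refine ⟨RealRMK.rieszMeasure Λ', ⟨?_⟩, key⟩
  have h2 := key 1
  rw [h1] at h2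
  simp only [ContinuousMap.one_apply, integral_const, smul_eq_mul, mul_one] at h2
  rw [measureReal_def] at h2
  rwa [ENNReal.toReal_eq_one_iff] at h2

end Pool.Agent.H4.ST
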