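import Pool.Agent.H70.CS.Main

/-! Behaviour at the point `s = 1` of Dirichlet series over the primes. -/

set_option autoImplicit false

namespace Pool.Agent.H4.ST

open Pool.Agent.H70.CS Complex Filter Topology

/-- `f(σ) = k log(σ - 1) + O(1)` as `σ → 1+` -/
def Edge (f : ℂ → ℂ) (k : ℂ) : Prop :=
  ∃ C : ℝ, ∀ᶠ σ : ℝ in 𝓝[>] 1, ‖f σ - k * (Real.log (σ - 1) : ℝ)‖ ≤ C

lemma Edge.add {f g : ℂ → ℂ} {k l : ℂ} (hf : Edge f k) (hg : Edge g l) :
    Edge (fun s => f s + g s) (k + l) := by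
  obtain ⟨C, hC⟩ := hf
  obtain ⟨D, hD⟩ := hg
  refine ⟨C + D, ?_⟩
  filter_upwards [hC, hD] with σ h1 h2
  have e : f σ + g σ - (k + l) * (Real.log (σ - 1) : ℝ) =
      (f σ - k * (Real.log (σ - 1) : ℝ)) + (g σ - l * (Real.log (σ - 1) : ℝ)) := by ring
  rw [e]
  exact (norm_add_le _ _).trans (add_le_add h1 h2)

lemma Edge.const_mul {f : ℂ → ℂ} {k : ℂ} (c : ℂ) (hf : Edge f k) :
    Edge (fun s => c * f s) (c * k) := by
  obtain ⟨C, hC⟩ := hf
  refine ⟨‖c‖ * C, ?_⟩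
  filter_upwards [hC] with σ h1
  have e : c * f σ - c * k * (Real.log (σ - 1) : ℝ) = c * (f σ - k * (Real.log (σ - 1) : ℝ)) := by
    ring
  rw [e, norm_mul]
  exact mul_le_mul_of_nonneg_left h1 (norm_nonneg _)

lemma Edge.congr {f g : ℂ → ℂ} {k : ℂ} (hf : Edge f k) (h : ∀ s : ℂ, 1 < s.re → g s = f s) :
    Edge g k := by
  obtain ⟨C, hC⟩ := hf
  refine ⟨C, ?_⟩
  filter_upwards [hC, self_mem_nhdsWithin] with σ h1 h2
  have h3 : (1 : ℝ) < σ := h2
  rw [h σ (by rw [Complex.ofReal_re]; exact h3)]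
  exact h1

lemma Edge.unique {f : ℂ → ℂ} {k l : ℂ} (hf : Edge f k) (hg : Edge f l) : k = l := by
  obtain ⟨C, hC⟩ := hf
  obtain ⟨D, hD⟩ := hg
  by_contra hne
  have hpos : 0 < ‖l - k‖ := norm_pos_iff.2 (sub_ne_zero.2 (Ne.symm hne))
  have h0 : Tendsto (fun σ : ℝ => σ - 1) (𝓝[>] 1) (𝓝[>] 0) := by
    refine tendsto_nhdsWithin_iff.2 ⟨?_, ?_⟩
    · have : Tendsto (fun σ : ℝ => σ - 1) (𝓝 1) (𝓝 (1 - 1)) :=
        (continuous_id.sub continuous_const).tendsto 1
      rw [sub_self] at this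
      exact this.mono_left nhdsWithin_le_nhds
    · filter_upwards [self_mem_nhdsWithin] with σ hσ
      have h3 : (1 : ℝ) < σ := hσ
      show (0 : ℝ) < σ - 1
      linarith
  have h1 : Tendsto (fun σ : ℝ => ‖l - k‖ * |Real.log (σ - 1)|) (𝓝[>] 1) atTop :=
    ((tendsto_abs_atBot_atTop.comp Real.tendsto_log_nhdsGT_zero).comp h0).const_mul_atTop hpos
  have h2 := h1.eventually (eventually_ge_atTop (C + D + 1))
  obtain ⟨σ, ⟨h3, h4⟩, h5⟩ := ((hC.and hD).and h2).exists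
  have e : (l - k) * (Real.log (σ - 1) : ℝ) = (f σ - k * (Real.log (σ - 1) : ℝ)) -
      (f σ - l * (Real.log (σ - 1) : ℝ)) := by ring
  have h6 : ‖l - k‖ * |Real.log (σ - 1)| ≤ C + D := by
    have h7 : ‖(l - k) * (Real.log (σ - 1) : ℝ)‖ ≤ C + D := by
      rw [e]
      exact (norm_sub_le _ _).trans (add_le_add h3 h4)
    rw [norm_mul, Complex.norm_real, Real.norm_eq_abs] at h7
    exact h7
  linarith

lemma tendsto_ofReal_one : Tendsto (fun σ : ℝ => (σ : ℂ)) (𝓝[>] 1) (𝓝[≠] 1) := by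
  refine tendsto_nhdsWithin_iff.2 ⟨?_, ?_⟩
  · have h : Tendsto (fun σ : ℝ => (σ : ℂ)) (𝓝 1) (𝓝 ((1 : ℝ) : ℂ)) :=
      Complex.continuous_ofReal.tendsto 1
    rw [Complex.ofReal_one] at h
    exact h.mono_left nhdsWithin_le_nhds
  · filter_upwards [self_mem_nhdsWithin] with σ hσ
    have h3 : (1 : ℝ) < σ := hσ
    simp only [Set.mem_compl_iff, Set.mem_singleton_iff]
    intro h
    rw [Complex.ofReal_eq_one] at h
    linarith

/-- functions which extend holomorphically are bounded at `1` -/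
lemma edge_of_neg {f : ℂ → ℂ} (hf : f ∈ H70.CS.Neg) : Edge f 0 := by
  obtain ⟨h, hh, hfh⟩ := hf
  have h1 : ContinuousAt h 1 :=
    ((hh 1 (show (1 / 2 : ℝ) < (1 : ℂ).re by norm_num)).differentiableAt
      ((isOpen_HP _).mem_nhds (show (1 / 2 : ℝ) < (1 : ℂ).re by norm_num))).continuousAt
  have h2 : Tendsto (fun σ : ℝ => ‖h σ‖) (𝓝[>] 1) (𝓝 ‖h 1‖) :=
    (h1.tendsto.comp (tendsto_ofReal_one.mono_right nhdsWithin_le_nhds)).norm
  refine ⟨‖h 1‖ + 1, ?_⟩
  filter_upwards [h2.eventually (gt_mem_nhds (show ‖h 1‖ < ‖h 1‖ + 1 by linarith)),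
    self_mem_nhdsWithin] with σ h3 h4
  have h5 : (1 : ℝ) < σ := h4
  rw [hfh σ (by rw [Complex.ofReal_re]; exact h5), zero_mul, sub_zero]
  exact h3.le

/-- an integer-valued continuous function on an interval is constant -/
lemma const_of_int {r : ℝ → ℝ} {a b : ℝ} (hr : ContinuousOn r (Set.Ioo a b))
    (hi : ∀ σ ∈ Set.Ioo a b, ∃ n : ℤ, r σ = n) {x y : ℝ} (hx : x ∈ Set.Ioo a b)
    (hy : y ∈ Set.Ioo a b) : r x = r y := by
  have key : ∀ x ∈ Set.Ioo a b, ∀ y ∈ Set.Ioo a b, ¬ r x < r y := by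
    intro x hx y hy hlt
    obtain ⟨n, hn⟩ := hi x hx
    obtain ⟨m, hm⟩ := hi y hy
    have hnm : n < m := by rw [hn, hm] at hlt; exact_mod_cast hlt
    have h1 : r x + 1 / 2 ∈ Set.Icc (r x) (r y) := by
      have : (n : ℝ) + 1 ≤ m := by exact_mod_cast hnm
      constructor <;> linarith
    obtain ⟨z, hz, hz1⟩ := isPreconnected_Ioo.intermediate_value hx hy hr h1
    obtain ⟨k, hk⟩ := hi z hz
    rw [hk, hn] at hz1
    have h2 : (2 * k : ℤ) = 2 * n + 1 := by
      have : (2 * k : ℝ) = 2 * n + 1 := by linarith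
      exact_mod_cast this
    omega
  rcases lt_trichotomy (r x) (r y) with h | h | h
  · exact absurd h (key x hx y hy)
  · exact h
  · exact absurd h (key y hy x hx)

lemma order_ne_top {Λ F : ℂ → ℂ} (h : ∀ s : ℂ, 1 < s.re → F s = Complex.exp (Λ s)) :
    meromorphicOrderAt F 1 ≠ ⊤ := by
  intro htop
  rw [meromorphicOrderAt_eq_top_iff] at htop
  have h1 := tendsto_ofReal_one.eventually htop
  obtain ⟨σ, h2, h3⟩ := (h1.and self_mem_nhdsWithin).exists
  have h4 : (1 : ℝ) < σ := h3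
  rw [h σ (by rw [Complex.ofReal_re]; exact h4)] at h2
  exact Complex.exp_ne_zero _ h2

/-- the logarithm of a meromorphic function at a point, along the real axis -/
lemma edge_of_order {Λ F : ℂ → ℂ} (hΛ : ContinuousOn Λ (HP 1)) (hF : MeromorphicAt F 1)
    {k : ℤ} (hk : meromorphicOrderAt F 1 = k) (h : ∀ s : ℂ, 1 < s.re → F s = Complex.exp (Λ s)) :
    Edge Λ k := by
  obtain ⟨g, hg, hg0, hFg⟩ := (meromorphicOrderAt_eq_int_iff hF).1 hk
  -- `g` near `1`
  have h1 : ∀ᶠ z in 𝓝 (1 : ℂ), ContinuousAt g z := hg.eventually_continuousAt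
  have h2 : ∀ᶠ z in 𝓝 (1 : ℂ), ‖g z / g 1 - 1‖ < 1 / 2 := by
    have : Tendsto (fun z => ‖g z / g 1 - 1‖) (𝓝 1) (𝓝 ‖g 1 / g 1 - 1‖) :=
      ((hg.continuousAt.tendsto.div_const _).sub_const _).norm
    rw [div_self hg0, sub_self, norm_zero] at this
    exact this.eventually (gt_mem_nhds (by norm_num))
  have h3 : ∀ᶠ σ : ℝ in 𝓝[>] 1, (F σ = ((σ : ℂ) - 1) ^ k • g σ ∧ ContinuousAt g σ) ∧
      ‖g σ / g 1 - 1‖ < 1 / 2 :=
    ((tendsto_ofReal_one.eventually hFg).and
      ((tendsto_ofReal_one.mono_right nhdsWithin_le_nhds).eventually h1)).and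
      ((tendsto_ofReal_one.mono_right nhdsWithin_le_nhds).eventually h2)
  obtain ⟨b, hb, hb1⟩ := (mem_nhdsGT_iff_exists_Ioo_subset).1 h3
  have hb' : (1 : ℝ) < b := hb
  set q : ℝ → ℂ := fun σ => Complex.log (g σ / g 1) + Complex.log (g 1) with hq
  set D : ℝ → ℂ := fun σ => Λ σ - k * (Real.log (σ - 1) : ℝ) - q σ with hD
  have hslit : ∀ σ ∈ Set.Ioo 1 b, g (σ : ℝ) / g 1 ∈ Complex.slitPlane := by
    intro σ hσ
    have h4 := (hb1 hσ).2
    have : g σ / g 1 = 1 + (g σ / g 1 - 1) := by ring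
    rw [this]
    exact Complex.mem_slitPlane_of_norm_lt_one (h4.trans (by norm_num))
  have hexp : ∀ σ ∈ Set.Ioo 1 b, Complex.exp (D σ) = 1 := by
    intro σ hσ
    have h4 := (hb1 hσ).1.1
    have hσ1 : 0 < σ - 1 := by have := hσ.1; linarith
    have hne : g σ / g 1 ≠ 0 := Complex.slitPlane_ne_zero (hslit σ hσ)
    have hgne : g σ ≠ 0 := fun h0 => hne (by rw [h0, zero_div])
    rw [h σ (by rw [Complex.ofReal_re]; exact hσ.1)] at h4
    have h5 : Complex.exp (k * (Real.log (σ - 1) : ℝ)) = ((σ : ℂ) - 1) ^ k := by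
      rw [Complex.exp_int_mul, ← Complex.ofReal_exp, Real.exp_log hσ1]
      push_cast
      rfl
    have h6 : Complex.exp (q σ) = g σ := by
      rw [hq]
      simp only
      rw [Complex.exp_add, Complex.exp_log hne, Complex.exp_log hg0]
      field_simp
    rw [hD]
    simp only
    rw [Complex.exp_sub, Complex.exp_sub, h5, h6, h4, smul_eq_mul]
    have h7 : ((σ : ℂ) - 1) ^ k ≠ 0 := by
      rw [← h5]; exact Complex.exp_ne_zero _
    field_simp
  have hcont : ContinuousOn D (Set.Ioo 1 b) := by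
    intro σ hσ
    have hσ1 : 0 < σ - 1 := by have := hσ.1; linarith
    have c1 : ContinuousAt (fun σ : ℝ => Λ σ) σ := by
      have : ContinuousAt Λ (σ : ℂ) := (hΛ σ (show (1 : ℝ) < (σ : ℂ).re by
        rw [Complex.ofReal_re]; exact hσ.1)).continuousAt ((isOpen_HP 1).mem_nhds
          (show (1 : ℝ) < (σ : ℂ).re by rw [Complex.ofReal_re]; exact hσ.1))
      exact this.comp Complex.continuous_ofReal.continuousAt
    have c2 : ContinuousAt (fun σ : ℝ => ((Real.log (σ - 1) : ℝ) : ℂ)) σ :=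
      Complex.continuous_ofReal.continuousAt.comp
        ((continuousAt_id.sub continuousAt_const).log hσ1.ne')
    have c3 : ContinuousAt (fun σ : ℝ => g σ) σ :=
      ContinuousAt.comp (g := g) (f := fun σ : ℝ => (σ : ℂ)) (hb1 hσ).1.2
        Complex.continuous_ofReal.continuousAt
    have c4 : ContinuousAt (fun σ : ℝ => Complex.log (g σ / g 1)) σ :=
      (c3.div_const _).clog (hslit σ hσ)
    exact ((c1.sub (continuousAt_const.mul c2)).sub
      (c4.add continuousAt_const)).continuousWithinAt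
  set r : ℝ → ℝ := fun σ => (D σ).im / (2 * Real.pi) with hr
  have hDr : ∀ σ ∈ Set.Ioo 1 b, ∃ m : ℤ, D σ = m * (2 * Real.pi * Complex.I) := by
    intro σ hσ
    exact Complex.exp_eq_one_iff.1 (hexp σ hσ)
  have hrint : ∀ σ ∈ Set.Ioo 1 b, ∃ m : ℤ, r σ = m := by
    intro σ hσ
    obtain ⟨m, hm⟩ := hDr σ hσ
    refine ⟨m, ?_⟩
    rw [hr]
    simp only
    rw [hm]
    have : ((m : ℂ) * (2 * Real.pi * Complex.I)).im = m * (2 * Real.pi) := by
      simp
    rw [this]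
    field_simp
  have hDeq : ∀ σ ∈ Set.Ioo 1 b, D σ = (r σ : ℝ) * (2 * Real.pi * Complex.I) := by
    intro σ hσ
    obtain ⟨m, hm⟩ := hDr σ hσ
    have h8 : r σ = m := by
      rw [hr]
      simp only
      rw [hm]
      have : ((m : ℂ) * (2 * Real.pi * Complex.I)).im = m * (2 * Real.pi) := by
        simp
      rw [this]
      field_simp
    rw [h8, hm]
    push_cast
    rfl
  have hrc : ContinuousOn r (Set.Ioo 1 b) :=
    (Complex.continuous_im.comp_continuousOn hcont).div_const _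
  set σ0 := (1 + b) / 2 with hσ0
  have hσ0m : σ0 ∈ Set.Ioo 1 b := by
    rw [hσ0]; constructor <;> linarith
  refine ⟨‖D σ0‖ + (1 + ‖Complex.log (g 1)‖), ?_⟩
  filter_upwards [Ioo_mem_nhdsGT hb'] with σ hσ
  have e : Λ σ - k * (Real.log (σ - 1) : ℝ) = D σ + q σ := by
    rw [hD]; simp only; ring
  rw [e]
  refine (norm_add_le _ _).trans (add_le_add ?_ ?_)
  · rw [hDeq σ hσ, const_of_int hrc hrint hσ hσ0m, ← hDeq σ0 hσ0m]
  · rw [hq]
    refine (norm_add_le _ _).trans (add_le_add ?_ le_rfl)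
    have h4 := (hb1 hσ).2
    have h5 := Complex.norm_log_one_add_half_le_self (z := g σ / g 1 - 1) h4.le
    have h6 : (1 : ℂ) + (g σ / g 1 - 1) = g σ / g 1 := by ring
    rw [h6] at h5
    linarith

lemma lam_continuousOn {b : Nat.Primes → ℂ} (hb : ∀ p, ‖b p‖ ≤ 1) : ContinuousOn (lam b) (HP 1) :=
  (lam_differentiableOn hb).continuousOn

/-- The sum `∑ p^{-s}`. -/
lemma edge_dir_one : Edge (dir fun _ => 1) (-1) := by
  have h1 : Edge lam1 ((-1 : ℤ) : ℂ) := by
    have hres := riemannZeta_residue_one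
    have hmer : MeromorphicAt riemannZeta 1 := zeta_meromorphicAt 1
    refine edge_of_order (lam_continuousOn fun _ => norm_one.le) hmer ?_ fun s hs => (exp_lam1 hs).symm
    have h2 : meromorphicOrderAt (fun s : ℂ => (s - 1) * riemannZeta s) 1 = 0 := by
      have hm : MeromorphicAt (fun s : ℂ => (s - 1) * riemannZeta s) 1 :=
        ((MeromorphicAt.id _).sub (MeromorphicAt.const _ _)).mul hmer
      exact (tendsto_ne_zero_iff_meromorphicOrderAt_eq_zero hm).1 ⟨1, one_ne_zero, hres⟩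
    have h3 : meromorphicOrderAt (fun s : ℂ => s - 1) 1 = 1 := by
      have := (meromorphicOrderAt_eq_int_iff (f := fun s : ℂ => s - 1) (x := 1) (n := 1)
        ((MeromorphicAt.id _).sub (MeromorphicAt.const _ _))).2
        ⟨fun _ => 1, analyticAt_const, one_ne_zero, Eventually.of_forall fun z => by simp⟩
      exact_mod_cast this
    have h4 := meromorphicOrderAt_mul (f := fun s : ℂ => s - 1) (g := riemannZeta) (x := 1)
      ((MeromorphicAt.id _).sub (MeromorphicAt.const _ _)) hmer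
    have h5 : (fun s : ℂ => s - 1) * riemannZeta = fun s : ℂ => (s - 1) * riemannZeta s := rfl
    rw [h5, h2, h3] at h4
    have h6 : meromorphicOrderAt riemannZeta 1 ≠ ⊤ :=
      order_ne_top (Λ := lam1) fun s hs => (exp_lam1 hs).symm
    obtain ⟨k, hk⟩ := WithTop.ne_top_iff_exists.1 h6
    rw [← hk] at h4 ⊢
    have h7 : (0 : ℤ) = 1 + k := by exact_mod_cast h4
    have h8 : k = -1 := by omega
    rw [h8]
  have h2 : Edge (fun s => -1 * (lam (fun _ => (1 : ℂ)) - dir fun _ => (1 : ℂ)) s) (-1 * 0) :=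
    (edge_of_neg (lam_sub_dir fun _ => by simp)).const_mul (-1)
  have h3 := h1.add h2
  have h4 : Edge (dir fun _ => 1) (((-1 : ℤ) : ℂ) + -1 * 0) := h3.congr fun s _ => by
    show dir (fun _ => 1) s = lam1 s + -1 * (lam (fun _ => (1 : ℂ)) s - dir (fun _ => 1) s)
    unfold lam1
    ring
  simpa using h4

end Pool.Agent.H4.ST
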