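import Pool.Agent.H4.ST.Greedy
import Pool.Agent.H4.ST.Mean

/-! Families with a given distribution and their L-functions. -/

set_option autoImplicit false

namespace Pool.Agent.H4.ST

open Pool.Agent.H70.CS Filter Topology MeasureTheory Complex

variable {n : ℕ}

/-- the integral of the character of a virtual representation -/
noncomputable def pair (μ : Measure (Torus n)) (ρ : Weight n →₀ ℤ) : ℂ :=
  ρ.sum fun l m => (m : ℂ) * four μ l

theorem exists_family (μ : Measure (Torus n)) [IsProbabilityMeasure μ] {ι : Type} [Countable ι]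
    (d : ι → ℕ) (B : ∀ i, Nat.Primes → Fin (d i) → ℂ) (hB : ∀ i p j, ‖B i p j‖ ≤ 1) :
    ∃ A : Nat.Primes → Torus n,
      (∀ l, ∃ C : ℝ, 0 ≤ C ∧ ∀ N : ℕ, ‖∑ q ∈ Finset.range N,
        (if h : q.Prime then ((chr (A ⟨q, h⟩) l : ℂ) - four μ l) else 0)‖ ≤
          C * Real.sqrt (Nat.count Nat.Prime N)) ∧
      (∀ l, dir (fun p => (chr (A p) l : ℂ) - four μ l) ∈ H70.CS.Neg) ∧
      (∀ l i j, dir (fun p => B i p j * ((chr (A p) l : ℂ) - four μ l)) ∈ H70.CS.Neg) := by
  classical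
  let I := Weight n × Option (Σ i : ι, Fin (d i))
  let t : ℕ → I → ℂ := fun q x => match x.2 with
    | none => 1
    | some ij => if h : q.Prime then B ij.1 ⟨q, h⟩ ij.2 else 0
  have ht : ∀ q i, ‖t q i‖ ≤ 1 := by
    rintro q ⟨l, _ | ⟨i, j⟩⟩
    · show ‖(1 : ℂ)‖ ≤ 1
      rw [norm_one]
    · show ‖(if h : q.Prime then B i ⟨q, h⟩ j else 0 : ℂ)‖ ≤ 1
      split_ifs with h
      · exact hB _ _ _
      · simp
  obtain ⟨A, hA⟩ := exists_seq μ (fun x : I => x.1) t ht Nat.Prime
  have hcount : ∀ N : ℕ, Real.sqrt (Nat.count Nat.Prime N) ≤ Real.sqrt N := by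
    intro N
    exact Real.sqrt_le_sqrt (Nat.cast_le.2 (Nat.count_le (p := Nat.Prime) (n := N)))
  have key : ∀ (l : Weight n) (b : Nat.Primes → ℂ) (x : I), x.1 = l → (∀ p, ‖b p‖ ≤ 1) →
      (∀ (q : ℕ) (h : q.Prime), t q x = b ⟨q, h⟩) →
      dir (fun p => b p * ((chr (A p) l : ℂ) - four μ l)) ∈ H70.CS.Neg := by
    intro l b x hx hb hbt
    obtain ⟨C, hC0, hC⟩ := hA x
    set c : ℕ → ℂ := fun q => if q.Prime then ((chr (A q) l : ℂ) - four μ l) * t q x else 0 with hc
    have hc0 : c 0 = 0 := by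
      rw [hc]; simp only; rw [if_neg Nat.not_prime_zero]
    have hcM : ∀ q, ‖c q‖ ≤ 2 := by
      intro q
      rw [hc]; simp only
      split_ifs with h
      · rw [norm_mul]
        have h4 : ‖(chr (A q) l : ℂ) - four μ l‖ ≤ 2 := by
          refine (norm_sub_le _ _).trans ?_
          rw [Circle.norm_coe]
          have := norm_four_le μ l
          linarith
        calc ‖(chr (A q) l : ℂ) - four μ l‖ * ‖t q x‖ ≤ 2 * 1 :=
              mul_le_mul h4 (ht q x) (norm_nonneg _) (by norm_num)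
          _ = 2 := by norm_num
      · simp
    have hcC : ∀ N : ℕ, ‖∑ q ∈ Finset.range N, c q‖ ≤ C * Real.sqrt N := by
      intro N
      have h1 := hC N
      rw [hx] at h1
      exact h1.trans (mul_le_mul_of_nonneg_left (hcount N) hC0)
    have h1 := neg_of_sqrt hc0 hcM hcC
    refine neg_of_eq h1 fun s hs => ?_
    unfold dir
    have h2 : ∀ p : Nat.Primes, b p * ((chr (A p) l : ℂ) - four μ l) * ((p : ℕ) : ℂ) ^ (-s) =
        (fun q : ℕ => c q * (q : ℂ) ^ (-s)) (p : ℕ) := by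
      intro p
      simp only [hc]
      rw [if_pos p.2, hbt p p.2, mul_comm (b p)]
      rfl
    rw [tsum_congr h2]
    refine tsum_subtype_eq_of_support_subset (f := fun q : ℕ => c q * (q : ℂ) ^ (-s))
      (s := {p : ℕ | p.Prime}) ?_
    intro q hq
    by_contra hn
    apply hq
    have hn' : ¬ q.Prime := hn
    simp only [hc]
    rw [if_neg hn', zero_mul]
  refine ⟨fun p => A p, fun l => ?_, fun l => ?_, fun l i j => ?_⟩
  · obtain ⟨C, hC0, hC⟩ := hA (l, none)
    refine ⟨C, hC0, fun N => ?_⟩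
    convert hC N using 3 with q hq
    by_cases h : q.Prime
    · rw [dif_pos h, if_pos h]
      show _ = _ * (1 : ℂ)
      rw [mul_one]
    · rw [dif_neg h, if_neg h]
  · have := key l (fun _ => 1) (l, none) rfl (fun _ => by simp) (fun q h => rfl)
    simpa using this
  · refine key l (fun p => B i p j) (l, some ⟨i, j⟩) rfl (fun p => hB i p j) (fun q h => ?_)
    show (if h : q.Prime then B i ⟨q, h⟩ j else 0 : ℂ) = _
    rw [dif_pos h]

lemma lam_neg {μ : Measure (Torus n)} [IsProbabilityMeasure μ] {A : Nat.Primes → Torus n}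
    {b : Nat.Primes → ℂ} (hb : ∀ p, ‖b p‖ ≤ 1) {l : Weight n}
    (h : dir (fun p => b p * ((chr (A p) l : ℂ) - four μ l)) ∈ H70.CS.Neg) :
    (lam fun p => b p * (chr (A p) l : ℂ)) - four μ l • lam b ∈ H70.CS.Neg := by
  have hb' : ∀ p, ‖b p * (chr (A p) l : ℂ)‖ ≤ 1 := fun p => by
    rw [norm_mul, Circle.norm_coe, mul_one]; exact hb p
  have h1 := lam_sub_dir hb'
  have h2 := lam_sub_dir hb
  have h3 := Submodule.sub_mem _ (Submodule.add_mem _ h1 h) (Submodule.smul_mem _ (four μ l) h2)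
  refine neg_of_eq h3 fun s hs => ?_
  simp only [Pi.sub_apply, Pi.add_apply, Pi.smul_apply, smul_eq_mul]
  have h4 : dir (fun p => b p * ((chr (A p) l : ℂ) - four μ l)) s =
      dir (fun p => b p * (chr (A p) l : ℂ)) s - four μ l * dir b s := by
    have h5 : ∀ p, ‖-four μ l * b p‖ ≤ 1 := fun p => by
      rw [norm_mul, norm_neg]
      exact mul_le_one₀ (norm_four_le μ l) (norm_nonneg _) (hb p)
    have h6 := dir_add hb' h5 hs
    rw [dir_mul (-four μ l) b] at h6
    rw [sub_eq_add_neg, ← neg_mul, ← h6]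
    congr 1
    funext p
    ring
  rw [h4]
  ring

/-- the L-functions of a family with given distribution -/
theorem twist_formula {μ : Measure (Torus n)} [IsProbabilityMeasure μ] {A : Nat.Primes → Torus n}
    {d : ℕ} {B : Nat.Primes → Fin d → ℂ} (hB : ∀ p j, ‖B p j‖ ≤ 1)
    (h : ∀ l j, dir (fun p => B p j * ((chr (A p) l : ℂ) - four μ l)) ∈ H70.CS.Neg)
    (ρ : Weight n →₀ ℤ) {k : ℤ} (hk : pair μ ρ = k) :
    ∃ g : ℂ → ℂ, DifferentiableOn ℂ g (HP (1 / 2)) ∧
      ∀ s : ℂ, 1 < s.re → LTwist A ρ B s = LEuler B s ^ k * Complex.exp (g s) := by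
  have h1 : logTwist A ρ B - (fun s => pair μ ρ * ∑ j, lam (fun p => B p j) s) ∈ H70.CS.Neg := by
    have h2 : ∑ l ∈ ρ.support, (ρ l : ℂ) • ∑ j, ((lam fun p => B p j * (chr (A p) l : ℂ)) -
        four μ l • lam fun p => B p j) ∈ H70.CS.Neg :=
      Submodule.sum_mem _ fun l _ => Submodule.smul_mem _ _ (Submodule.sum_mem _ fun j _ =>
        lam_neg (fun p => hB p j) (h l j))
    refine neg_of_eq h2 fun s _ => ?_
    unfold logTwist pair Finsupp.sum
    simp only [Pi.sub_apply, Finset.sum_apply, Pi.smul_apply, smul_eq_mul]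
    rw [Finset.sum_mul, ← Finset.sum_sub_distrib]
    refine Finset.sum_congr rfl fun l _ => ?_
    rw [Finset.sum_sub_distrib, ← Finset.mul_sum]
    ring
  obtain ⟨g, hg, hge⟩ := h1
  refine ⟨g, hg, fun s hs => ?_⟩
  have h3 := hge s hs
  simp only [Pi.sub_apply] at h3
  rw [LEuler_eq hB hs, LTwist_eq A ρ hB hs, ← h3, hk, ← Complex.exp_int_mul, ← Complex.exp_add]
  congr 1
  ring

lemma LFun_eq_twist (A : Nat.Primes → Torus n) (ρ : Weight n →₀ ℤ) (s : ℂ) :
    LFun A ρ s = LTwist A ρ (fun _ (_ : Fin 1) => 1) s := by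
  unfold LFun LTwist
  refine tprod_congr fun p => ?_
  simp

theorem fun_formula {μ : Measure (Torus n)} [IsProbabilityMeasure μ] {A : Nat.Primes → Torus n}
    (h : ∀ l, dir (fun p => (chr (A p) l : ℂ) - four μ l) ∈ H70.CS.Neg)
    (ρ : Weight n →₀ ℤ) {k : ℤ} (hk : pair μ ρ = k) :
    ∃ g : ℂ → ℂ, DifferentiableOn ℂ g (HP (1 / 2)) ∧
      ∀ s : ℂ, 1 < s.re → LFun A ρ s = riemannZeta s ^ k * Complex.exp (g s) := by
  obtain ⟨g, hg, hge⟩ := twist_formula (μ := μ) (A := A) (d := 1) (B := fun _ _ => 1)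
    (fun _ _ => by simp) (fun l j => by simpa using h l) ρ hk
  refine ⟨g, hg, fun s hs => ?_⟩
  have h0 : LEuler (fun (_ : Nat.Primes) (_ : Fin 1) => 1) s = riemannZeta s := by
    rw [LEuler_eq (fun _ _ => by simp) hs]
    simp only [Finset.univ_unique, Fin.default_eq_zero, Fin.isValue, Finset.sum_const,
      Finset.card_singleton, one_smul]
    exact exp_lam1 hs
  rw [LFun_eq_twist, hge s hs, h0]

end Pool.Agent.H4.ST
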