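import Pool.Agent.H4.ST.Exist
import Pool.Agent.H4.CosetThm
import Pool.Agent.H70.CS.Alg

/-! The structure of the limit distributions. -/

set_option autoImplicit false

namespace Pool.Agent.H4.ST

open Pool.Agent.H70.CS Filter Topology MeasureTheory Complex Pool.Agent.H4.Coset ComplexConjugate

variable {n : ℕ}

/-- the points of the torus where all characters of `Λ` are trivial -/
def ann (Λ : AddSubgroup (Weight n)) : Subgroup (Torus n) where
  carrier := {y | ∀ l ∈ Λ, chr y l = 1}
  mul_mem' := fun ha hb l hl => by rw [chr_mul, ha l hl, hb l hl, one_mul]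
  one_mem' := fun l _ => by simp [chr]
  inv_mem' := fun {a} ha l hl => by
    have h := chr_mul a a⁻¹ l
    rw [mul_inv_cancel, ha l hl, one_mul] at h
    rw [← h]
    simp [chr]

lemma mem_ann {Λ : AddSubgroup (Weight n)} {y : Torus n} : y ∈ ann Λ ↔ ∀ l ∈ Λ, chr y l = 1 := Iff.rfl

lemma isClosed_ann (Λ : AddSubgroup (Weight n)) : IsClosed (ann Λ : Set (Torus n)) := by
  have : (ann Λ : Set (Torus n)) = ⋂ l ∈ Λ, {y | chr y l = 1} := by
    ext y
    simp only [SetLike.mem_coe, mem_ann, Set.mem_iInter, Set.mem_ofPred_eq]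
  rw [this]
  exact isClosed_biInter fun l _ => isClosed_eq (continuous_chr l) continuous_const

instance (Λ : AddSubgroup (Weight n)) : CompactSpace (ann Λ) :=
  isCompact_iff_compactSpace.1 (isClosed_ann Λ).isCompact

/-- the Haar probability measure of the closed subgroup -/
noncomputable def hm (Λ : AddSubgroup (Weight n)) : Measure (ann Λ) := Measure.haarMeasure ⊤

instance (Λ : AddSubgroup (Weight n)) : IsProbabilityMeasure (hm Λ) := ⟨by
  have := Measure.haarMeasure_self (K₀ := (⊤ : TopologicalSpace.PositiveCompacts (ann Λ)))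
  simpa [hm] using this⟩

instance (Λ : AddSubgroup (Weight n)) : (hm Λ).IsMulLeftInvariant := by
  unfold hm; infer_instance

lemma weight_decomp (l : Weight n) :
    l = l.1 • ((1, 0) : Weight n) + ∑ i, l.2 i • ((0, Pi.single i 1) : Weight n) := by
  ext j
  · simp [Prod.fst_sum]
  · simp [Prod.snd_sum, Finset.sum_apply, Pi.single_apply]

/-- characters separate subgroups -/
lemma exists_ann {Λ : AddSubgroup (Weight n)} {v : Weight n} (hv : v ∉ Λ) :
    ∃ y ∈ ann Λ, chr y v ≠ 1 := by
  obtain ⟨c, hc, hcv⟩ := exists_char Λ v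
  let y : Torus n := (AddCircle.toCircle (c (1, 0)), fun i => AddCircle.toCircle (c (0, Pi.single i 1)))
  have hθ : ∀ l : Weight n, chr y l = AddCircle.toCircle (c l) := by
    intro l
    conv_rhs => rw [weight_decomp l]
    rw [map_add, map_sum, AddCircle.toCircle_add]
    have hz : ∀ (k : ℤ) (x : AddCircle (1 : ℝ)), AddCircle.toCircle (k • x) =
        AddCircle.toCircle x ^ k := by
      intro k x
      exact AddCircle.toCircle_zsmul x k
    have hs : ∀ (s : Finset (Fin n)) (g : Fin n → AddCircle (1 : ℝ)),
        AddCircle.toCircle (∑ i ∈ s, g i) = ∏ i ∈ s, AddCircle.toCircle (g i) := by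
      classical
      intro s g
      induction s using Finset.induction_on with
      | empty => simp
      | insert a s ha ih => rw [Finset.sum_insert ha, Finset.prod_insert ha, AddCircle.toCircle_add, ih]
    rw [hs, map_zsmul, hz]
    unfold chr
    congr 1
    refine Finset.prod_congr rfl fun i _ => ?_
    rw [map_zsmul, hz]
  refine ⟨y, fun l hl => ?_, fun h => hv ?_⟩
  · rw [hθ, hc l hl, AddCircle.toCircle_zero]
  · rw [hθ, ← AddCircle.toCircle_zero (T := (1 : ℝ))] at h
    have h1 := AddCircle.injective_toCircle (one_ne_zero) h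
    have h2 := hcv 1
    rw [one_smul] at h2
    exact h2 h1

open scoped Classical in
lemma integral_chr (Λ : AddSubgroup (Weight n)) (v : Weight n) :
    ∫ y : ann Λ, (chr (y : Torus n) v : ℂ) ∂(hm Λ) = if v ∈ Λ then 1 else 0 := by
  split_ifs with hv
  · have : ∀ y : ann Λ, (chr (y : Torus n) v : ℂ) = 1 := fun y => by
      rw [y.2 v hv, Circle.coe_one]
    simp only [this]
    simp
  · obtain ⟨z, hz, hzv⟩ := exists_ann hv
    have h1 := integral_mul_left_eq_self (μ := hm Λ) (fun y : ann Λ => (chr (y : Torus n) v : ℂ))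
      (⟨z, hz⟩ : ann Λ)
    have h2 : ∀ y : ann Λ, (chr (((⟨z, hz⟩ : ann Λ) * y : ann Λ) : Torus n) v : ℂ) =
        (chr z v : ℂ) * (chr (y : Torus n) v : ℂ) := by
      intro y
      rw [Subgroup.coe_mul, chr_mul, Circle.coe_mul]
    simp only [h2] at h1
    rw [integral_const_mul] at h1
    have h3 : (chr z v : ℂ) ≠ 1 := fun h => hzv (Circle.ext (by rw [h, Circle.coe_one]))
    have h4 : ((chr z v : ℂ) - 1) * ∫ y : ann Λ, (chr (y : Torus n) v : ℂ) ∂(hm Λ) = 0 := by
      rw [sub_mul, h1, one_mul, sub_self]
    exact (mul_eq_zero.1 h4).resolve_left (sub_ne_zero.2 h3)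

/-- the density of a piece, a trigonometric polynomial with integral coefficients -/
noncomputable def den (P : Piece (Weight n)) (y : Torus n) : ℂ :=
  (P.L.map fun t => (t.1 : ℂ) * conj (chr y t.2 : ℂ)).sum

lemma continuous_den (P : Piece (Weight n)) : Continuous (den P) := by
  unfold den
  induction P.L with
  | nil => simpa using continuous_const
  | cons a L ih =>
    simp only [List.map_cons, List.sum_cons]
    exact (continuous_const.mul (Complex.continuous_conj.comp (chC a.2).continuous)).add ih

lemma integrable_ann (Λ : AddSubgroup (Weight n)) {f : Torus n → ℂ} (hf : Continuous f) :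
    Integrable (fun y : ann Λ => f y) (hm Λ) := by
  have hc : Continuous fun y : ann Λ => f y := hf.comp continuous_subtype_val
  let g : C(ann Λ, ℂ) := ⟨fun y => f y, hc⟩
  refine Integrable.mono' (integrable_const ‖g‖) hc.aestronglyMeasurable ?_
  exact Eventually.of_forall fun y => g.norm_coe_le_norm y

lemma integral_den (P : Piece (Weight n)) (l : Weight n) :
    ∫ y : ann P.Λ, (chr (y : Torus n) l : ℂ) * den P y ∂(hm P.Λ) = (P.val l : ℂ) := by
  classical
  unfold den Piece.val
  obtain ⟨Λ, L⟩ := P
  simp only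
  induction L with
  | nil => simp
  | cons a L ih =>
    set F1 : Torus n → ℂ := fun y => (a.1 : ℂ) * (chr y (l - a.2) : ℂ) with hF1
    set F2 : Torus n → ℂ := fun y => (chr y l : ℂ) * den ⟨Λ, L⟩ y with hF2
    have hi1 : Continuous F1 := continuous_const.mul (chC (l - a.2)).continuous
    have hi2 : Continuous F2 := (chC l).continuous.mul (continuous_den ⟨Λ, L⟩)
    have h1 : ∀ y : ann Λ, (chr (y : Torus n) l : ℂ) *
        (((a :: L).map fun t => (t.1 : ℂ) * conj (chr (y : Torus n) t.2 : ℂ)).sum) =
        F1 y + F2 y := by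
      intro y
      rw [List.map_cons, List.sum_cons, hF1, hF2]
      beta_reduce
      rw [sub_eq_add_neg, chr_add, chr_neg, Circle.coe_mul, Circle.coe_inv_eq_conj]
      unfold den
      ring
    simp only [h1]
    have h2 : ∫ y : ann Λ, (F1 y + F2 y) ∂(hm Λ) = (∫ y : ann Λ, F1 y ∂(hm Λ)) +
        ∫ y : ann Λ, F2 y ∂(hm Λ) := integral_add (integrable_ann Λ hi1) (integrable_ann Λ hi2)
    have h3 : ∫ y : ann Λ, F2 y ∂(hm Λ) =
        (((L.map fun t => if l - t.2 ∈ Λ then t.1 else 0).sum : ℤ) : ℂ) := ih
    have h4 : ∫ y : ann Λ, F1 y ∂(hm Λ) = (a.1 : ℂ) * (if l - a.2 ∈ Λ then 1 else 0) := by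
      rw [hF1]
      beta_reduce
      rw [integral_const_mul, integral_chr]
    rw [h2, h3, h4, List.map_cons, List.sum_cons]
    push_cast
    congr 1
    split_ifs <;> simp

/-- the formula for a measure whose Fourier coefficients are integral combinations of
indicator functions of cosets -/
theorem structure_formula {μ : Measure (Torus n)} [IsProbabilityMeasure μ] (N : ℂ)
    {Ps : List (Piece (Weight n))}
    (h : ∀ l, N * four μ l = ((Ps.map fun P => P.val l).sum : ℤ)) (f : C(Torus n, ℂ)) :
    N * ∫ y, f y ∂μ = (Ps.map fun P => ∫ y : ann P.Λ, f (y : Torus n) * den P y ∂(hm P.Λ)).sum := by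
  have hcont : ∀ P : Piece (Weight n), Continuous fun f : C(Torus n, ℂ) =>
      ∫ y : ann P.Λ, f (y : Torus n) * den P y ∂(hm P.Λ) := by
    intro P
    obtain ⟨M, hM⟩ : ∃ M, ∀ y, ‖den P y‖ ≤ M := by
      let g : C(Torus n, ℂ) := ⟨den P, continuous_den P⟩
      exact ⟨‖g‖, fun y => g.norm_coe_le_norm y⟩
    have hM0 : 0 ≤ M := (norm_nonneg _).trans (hM 1)
    refine LipschitzWith.continuous (K := ⟨M, hM0⟩) ?_
    refine LipschitzWith.of_dist_le_mul fun f g => ?_
    have hc : ∀ f : C(Torus n, ℂ), Continuous fun y : Torus n => f y * den P y := fun f =>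
      f.continuous.mul (continuous_den P)
    have hsub : (∫ y : ann P.Λ, f (y : Torus n) * den P y ∂(hm P.Λ)) -
        ∫ y : ann P.Λ, g (y : Torus n) * den P y ∂(hm P.Λ) =
        ∫ y : ann P.Λ, (f (y : Torus n) * den P y - g (y : Torus n) * den P y) ∂(hm P.Λ) :=
      (integral_sub (integrable_ann P.Λ (hc f)) (integrable_ann P.Λ (hc g))).symm
    rw [dist_eq_norm, hsub]
    show _ ≤ M * dist f g
    refine (norm_integral_le_of_norm_le_const (C := M * dist f g)
      (Eventually.of_forall fun y => ?_)).trans ?_
    · rw [← sub_mul, norm_mul, mul_comm]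
      refine mul_le_mul (hM _) ?_ (norm_nonneg _) hM0
      rw [← dist_eq_norm]
      exact ContinuousMap.dist_apply_le_dist _
    · simp
  have hlist : ∀ {a : List (Piece (Weight n))}, Continuous fun f : C(Torus n, ℂ) =>
      (a.map fun P => ∫ y : ann P.Λ, f (y : Torus n) * den P y ∂(hm P.Λ)).sum := by
    intro a
    induction a with
    | nil => simpa using continuous_const
    | cons b a ih =>
      simp only [List.map_cons, List.sum_cons]
      exact (hcont b).add ih
  have hcont' : Continuous fun f : C(Torus n, ℂ) => ∫ y, f y ∂μ := by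
    refine LipschitzWith.continuous (K := 1) ?_
    refine LipschitzWith.of_dist_le_mul fun f g => ?_
    rw [dist_eq_norm]
    refine (norm_integral_sub_le μ f g).trans ?_
    rw [NNReal.coe_one, one_mul, dist_eq_norm]
  revert f
  refine induction_chr (isClosed_eq (continuous_const.mul hcont') hlist) ?_ ?_ ?_
  · intro f g hf hg
    have h2 : (∫ y, (f + g) y ∂μ) = (∫ y, f y ∂μ) + ∫ y, g y ∂μ :=
      integral_add (integrable_cont μ f) (integrable_cont μ g)
    rw [h2, mul_add, hf, hg, ← List.sum_map_add]
    congr 1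
    refine List.map_congr_left fun P _ => ?_
    have hc : ∀ f : C(Torus n, ℂ), Continuous fun y : Torus n => f y * den P y := fun f =>
      f.continuous.mul (continuous_den P)
    have hadd : (∫ y : ann P.Λ, f (y : Torus n) * den P y ∂(hm P.Λ)) +
        ∫ y : ann P.Λ, g (y : Torus n) * den P y ∂(hm P.Λ) =
        ∫ y : ann P.Λ, (f (y : Torus n) * den P y + g (y : Torus n) * den P y) ∂(hm P.Λ) :=
      (integral_add (integrable_ann P.Λ (hc f)) (integrable_ann P.Λ (hc g))).symm
    rw [hadd]
    refine integral_congr_ae (Eventually.of_forall fun y => ?_)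
    beta_reduce
    rw [ContinuousMap.add_apply, add_mul]
  · intro c f hf
    have h2 : (∫ y, (c • f) y ∂μ) = c * ∫ y, f y ∂μ := integral_const_mul c _
    rw [h2, mul_left_comm, hf, ← List.sum_map_mul_left]
    congr 1
    refine List.map_congr_left fun P _ => ?_
    rw [← integral_const_mul]
    refine integral_congr_ae (Eventually.of_forall fun y => ?_)
    beta_reduce
    rw [ContinuousMap.smul_apply, smul_eq_mul, mul_assoc]
  · intro l
    have h2 : (∫ y, chC l y ∂μ) = four μ l := rfl
    rw [h2, h l, Int.cast_list_sum, List.map_map]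
    congr 1
    refine List.map_congr_left fun P _ => ?_
    exact (integral_den P l).symm

/-- countably many pieces -/
instance : Countable (Piece (Weight n)) := by
  have h1 : Countable (AddSubgroup (Weight n)) := by
    have h2 : Function.Surjective fun s : Finset (Weight n) =>
        AddSubgroup.closure (s : Set (Weight n)) := by
      intro Λ
      have h3 : (AddSubgroup.toIntSubmodule Λ).FG := IsNoetherian.noetherian _
      rw [Submodule.fg_iff_addSubgroup_fg] at h3
      obtain ⟨s, hs⟩ := h3
      exact ⟨s, by simpa using hs⟩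
    exact h2.countable
  have h4 : Function.Injective fun P : Piece (Weight n) => (P.Λ, P.L) := by
    rintro ⟨a, b⟩ ⟨c, d⟩ h
    simp only [Prod.mk.injEq] at h
    rw [h.1, h.2]
  exact h4.countable

end Pool.Agent.H4.ST
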