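import Pool.Agent.H70.CS.Defs

/-! The compact torus of `GSpin(2n+1)`, the Weyl group, and trigonometric polynomials. -/

set_option autoImplicit false

namespace Pool.Agent.H4.ST

open Pool.Agent.H70.CS Filter Topology MeasureTheory

/-- the Borel sets of the circle -/
noncomputable instance : MeasurableSpace Circle := borel Circle

instance : BorelSpace Circle := ⟨rfl⟩

instance : SecondCountableTopology Circle :=
  TopologicalSpace.Subtype.secondCountableTopology _

variable {n : ℕ}

/-- the Weyl group: a permutation of the coordinates together with a set of sign changes -/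
abbrev Weyl (n : ℕ) := Equiv.Perm (Fin n) × (Fin n → Bool)

/-- the action of the Weyl group on the weights; a sign change is `e_i ↦ e₀ - e_i` -/
def wact (w : Weyl n) (l : Weight n) : Weight n :=
  (l.1, fun i => if w.2 i then l.1 - l.2 (w.1 i) else l.2 (w.1 i))

/-- the action of the Weyl group on the torus; a sign change is `b₀ ↦ b₀ b_i`, `b_i ↦ b_i⁻¹` -/
noncomputable def tact (w : Weyl n) (y : Torus n) : Torus n :=
  (y.1 * ∏ i, (if w.2 i then y.2 i else 1),
    fun j => if w.2 (w.1.symm j) then (y.2 (w.1.symm j))⁻¹ else y.2 (w.1.symm j))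

lemma chr_tact (w : Weyl n) (y : Torus n) (l : Weight n) :
    chr (tact w y) l = chr y (wact w l) := by
  unfold chr tact wact
  simp only
  rw [← Equiv.prod_comp w.1 (fun j => (if w.2 (w.1.symm j) then (y.2 (w.1.symm j))⁻¹
    else y.2 (w.1.symm j)) ^ l.2 j)]
  simp only [Equiv.symm_apply_apply]
  rw [mul_zpow, ← Finset.prod_zpow, mul_assoc, ← Finset.prod_mul_distrib]
  congr 1
  refine Finset.prod_congr rfl fun i _ => ?_
  by_cases h : w.2 i
  · simp only [h, if_true]
    rw [zpow_sub, inv_zpow]
  · simp [h]

def wmul (w' w : Weyl n) : Weyl n := (w.1 * w'.1, fun i => xor (w'.2 i) (w.2 (w'.1 i)))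

lemma wact_wmul (w' w : Weyl n) (l : Weight n) : wact (wmul w' w) l = wact w' (wact w l) := by
  unfold wact wmul
  ext i
  · rfl
  · simp only [Equiv.Perm.coe_mul, Function.comp]
    by_cases h1 : w'.2 i = true <;> by_cases h2 : w.2 (w'.1 i) = true <;> simp [h1, h2]

lemma wmul_injective_right (w : Weyl n) : Function.Injective fun w' : Weyl n => wmul w' w := by
  intro a b h
  simp only [wmul, Prod.mk.injEq] at h
  obtain ⟨h1, h2⟩ := h
  have h3 : a.1 = b.1 := mul_left_cancel h1
  refine Prod.ext h3 ?_
  funext j
  have := congrFun h2 j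
  rw [h3] at this
  simpa using this

lemma wmul_bijective_right (w : Weyl n) : Function.Bijective fun w' : Weyl n => wmul w' w :=
  Finite.injective_iff_bijective.mp (wmul_injective_right w)

lemma wmul_injective_left (w' : Weyl n) : Function.Injective (wmul w') := by
  intro a b h
  unfold wmul at h
  rw [Prod.mk.injEq] at h
  obtain ⟨h1, h2⟩ := h
  have h3 : a.1 = b.1 := mul_right_cancel h1
  refine Prod.ext h3 ?_
  funext j
  have := congrFun h2 (w'.1.symm j)
  simpa using this

lemma wmul_bijective_left (w' : Weyl n) : Function.Bijective (wmul w') :=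
  Finite.injective_iff_bijective.mp (wmul_injective_left w')

lemma wact_one (l : Weight n) : wact (1, fun _ => false) l = l := by
  unfold wact
  ext i <;> simp

lemma wact_add (w : Weyl n) (l m : Weight n) : wact w (l + m) = wact w l + wact w m := by
  unfold wact
  ext i
  · rfl
  · simp only [Prod.fst_add, Prod.snd_add, Pi.add_apply]
    split_ifs <;> ring

lemma wact_neg (w : Weyl n) (l : Weight n) : wact w (-l) = -wact w l := by
  unfold wact
  ext i
  · rfl
  · simp only [Prod.fst_neg, Prod.snd_neg, Pi.neg_apply]
    split_ifs <;> ring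

lemma wact_bijective (w : Weyl n) : Function.Bijective (wact w) := by
  obtain ⟨w', hw'⟩ := (wmul_bijective_left w).2 (1, fun _ => false)
  have h1 : ∀ μ, wact w (wact w' μ) = μ := fun μ => by rw [← wact_wmul, hw', wact_one]
  obtain ⟨w'', hw''⟩ := (wmul_bijective_left w').2 (1, fun _ => false)
  have h2 : ∀ μ, wact w' (wact w'' μ) = μ := fun μ => by rw [← wact_wmul, hw'', wact_one]
  have h3 : ∀ μ, wact w'' μ = wact w μ := fun μ => by
    rw [← h1 (wact w'' μ), h2]
  refine ⟨fun a b hab => ?_, fun μ => ⟨_, h1 μ⟩⟩
  rw [← h2 a, ← h2 b, h3, h3, hab]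

lemma card_weyl : Fintype.card (Weyl n) = 2 ^ n * n.factorial := by
  simp [Fintype.card_perm]
  ring

lemma chr_fst (y : Torus n) : chr y (1, 0) = y.1 := by
  unfold chr; simp

lemma chr_single (y : Torus n) (i : Fin n) : chr y (0, Pi.single i 1) = y.2 i := by
  unfold chr
  rw [zpow_zero, one_mul, Finset.prod_eq_single i]
  · simp
  · intro k _ hk
    show y.2 k ^ ((Pi.single i (1 : ℤ) : Fin n → ℤ) k) = 1
    rw [Pi.single_eq_of_ne hk, zpow_zero]
  · intro h; exact absurd (Finset.mem_univ _) h

lemma eq_of_chr {x y : Torus n} (h : ∀ l, chr x l = chr y l) : x = y := by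
  refine Prod.ext ?_ (funext fun i => ?_)
  · rw [← chr_fst x, ← chr_fst y, h]
  · rw [← chr_single x i, ← chr_single y i, h]

lemma tact_wmul (w' w : Weyl n) (y : Torus n) : tact (wmul w' w) y = tact w (tact w' y) := by
  refine eq_of_chr fun l => ?_
  rw [chr_tact, wact_wmul, chr_tact, chr_tact]

lemma continuous_tact (w : Weyl n) : Continuous (tact w) := by
  unfold tact
  refine Continuous.prodMk ?_ ?_
  · refine continuous_fst.mul (continuous_finsetProd _ fun i _ => ?_)
    split_ifs
    · exact (continuous_apply i).comp continuous_snd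
    · exact continuous_const
  · refine continuous_pi fun j => ?_
    split_ifs
    · exact ((continuous_apply _).comp continuous_snd).inv
    · exact (continuous_apply _).comp continuous_snd

lemma continuous_chr (l : Weight n) : Continuous fun y : Torus n => chr y l := by
  unfold chr
  refine (continuous_fst.zpow _).mul (continuous_finsetProd _ fun i _ => ?_)
  exact ((continuous_apply i).comp continuous_snd).zpow _

/-- the character as a continuous function -/
noncomputable def chC (l : Weight n) : C(Torus n, ℂ) :=
  ⟨fun y => (chr y l : ℂ), continuous_subtype_val.comp (continuous_chr l)⟩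

lemma chC_apply (l : Weight n) (y : Torus n) : chC l y = (chr y l : ℂ) := rfl

lemma chC_mul (l m : Weight n) : chC l * chC m = chC (l + m) := by
  ext y
  rw [ContinuousMap.mul_apply, chC_apply, chC_apply, chC_apply, chr_add, Circle.coe_mul]

lemma chC_zero : chC (0 : Weight n) = 1 := by
  ext y
  rw [chC_apply, chr_zero]; simp

lemma chC_star (l : Weight n) : star (chC l) = chC (-l) := by
  ext y
  rw [ContinuousMap.star_apply, chC_apply, chC_apply, chr_neg, Circle.coe_inv_eq_conj]
  rfl

/-- the trigonometric polynomials -/
noncomputable def trig (n : ℕ) : StarSubalgebra ℂ C(Torus n, ℂ) where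
  carrier := Submodule.span ℂ (Set.range (chC (n := n)))
  mul_mem' := by
    intro a b ha hb
    induction ha, hb using Submodule.span_induction₂ with
    | mem_mem x y hx hy =>
      obtain ⟨l, rfl⟩ := hx
      obtain ⟨m, rfl⟩ := hy
      rw [chC_mul]
      exact Submodule.subset_span ⟨_, rfl⟩
    | zero_left y hy => rw [zero_mul]; exact Submodule.zero_mem _
    | zero_right x hx => rw [mul_zero]; exact Submodule.zero_mem _
    | add_left x y z hx hy hz h1 h2 => rw [add_mul]; exact Submodule.add_mem _ h1 h2
    | add_right x y z hx hy hz h1 h2 => rw [mul_add]; exact Submodule.add_mem _ h1 h2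
    | smul_left r x y hx hy h => rw [smul_mul_assoc]; exact Submodule.smul_mem _ _ h
    | smul_right r x y hx hy h => rw [mul_smul_comm]; exact Submodule.smul_mem _ _ h
  one_mem' := by
    rw [← chC_zero]
    exact Submodule.subset_span ⟨_, rfl⟩
  add_mem' := fun ha hb => Submodule.add_mem _ ha hb
  zero_mem' := Submodule.zero_mem _
  algebraMap_mem' := fun r => by
    rw [Algebra.algebraMap_eq_smul_one, ← chC_zero]
    exact Submodule.smul_mem _ _ (Submodule.subset_span ⟨_, rfl⟩)
  star_mem' := by
    intro a ha
    induction ha using Submodule.span_induction with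
    | mem x hx =>
      obtain ⟨l, rfl⟩ := hx
      rw [chC_star]
      exact Submodule.subset_span ⟨_, rfl⟩
    | zero => rw [star_zero]; exact Submodule.zero_mem _
    | add x y hx hy h1 h2 => rw [star_add]; exact Submodule.add_mem _ h1 h2
    | smul r x hx h => rw [star_smul]; exact Submodule.smul_mem _ _ h

lemma trig_dense : (trig n).topologicalClosure = ⊤ := by
  refine ContinuousMap.starSubalgebra_topologicalClosure_eq_top_of_separatesPoints _ ?_
  intro x y hxy
  have h : ∃ l, chr x l ≠ chr y l := by
    by_contra hc
    push Not at hc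
    exact hxy (eq_of_chr hc)
  obtain ⟨l, hl⟩ := h
  refine ⟨_, ⟨chC l, Submodule.subset_span ⟨l, rfl⟩, rfl⟩, ?_⟩
  intro he
  exact hl (Circle.ext he)

/-- induction over all continuous functions -/
theorem induction_chr {p : C(Torus n, ℂ) → Prop} (hc : IsClosed {f | p f})
    (hadd : ∀ f g, p f → p g → p (f + g)) (hsmul : ∀ (c : ℂ) f, p f → p (c • f))
    (hchr : ∀ l, p (chC l)) (f : C(Torus n, ℂ)) : p f := by
  have h1 : f ∈ (trig n).topologicalClosure := by rw [trig_dense]; trivial
  have h2 : f ∈ closure ((trig n : StarSubalgebra ℂ C(Torus n, ℂ)) : Set C(Torus n, ℂ)) := by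
    rwa [← StarSubalgebra.topologicalClosure_coe]
  refine closure_minimal ?_ hc h2
  intro g hg
  have hg' : g ∈ Submodule.span ℂ (Set.range (chC (n := n))) := hg
  show p g
  induction hg' using Submodule.span_induction with
  | mem x hx =>
    obtain ⟨l, rfl⟩ := hx
    exact hchr l
  | zero =>
    have := hsmul 0 _ (hchr 0)
    rwa [zero_smul] at this
  | add x y hx hy h1 h2 => exact hadd _ _ (h1 hx) (h2 hy)
  | smul r x hx h => exact hsmul _ _ (h hx)

lemma integrable_cont (μ : Measure (Torus n)) [IsFiniteMeasure μ] (f : C(Torus n, ℂ)) :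
    Integrable (fun y => f y) μ := by
  refine Integrable.mono' (integrable_const ‖f‖) f.continuous.aestronglyMeasurable ?_
  exact Eventually.of_forall fun y => f.norm_coe_le_norm y

/-- finite measures with the same Fourier coefficients are equal -/
theorem measure_ext {μ ν : Measure (Torus n)} [IsFiniteMeasure μ] [IsFiniteMeasure ν]
    (h : ∀ l, ∫ y, (chr y l : ℂ) ∂μ = ∫ y, (chr y l : ℂ) ∂ν) : μ = ν := by
  have key : ∀ f : C(Torus n, ℂ), ∫ y, f y ∂μ = ∫ y, f y ∂ν := by
    refine induction_chr ?_ ?_ ?_ ?_
    · have hcont : ∀ (κ : Measure (Torus n)) [IsFiniteMeasure κ],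
          Continuous fun f : C(Torus n, ℂ) => ∫ y, f y ∂κ := by
        intro κ _
        refine LipschitzWith.continuous (K := ⟨κ.real Set.univ, measureReal_nonneg⟩) ?_
        refine LipschitzWith.of_dist_le_mul fun f g => ?_
        rw [dist_eq_norm, ← integral_sub (integrable_cont κ f) (integrable_cont κ g)]
        refine (norm_integral_le_of_norm_le_const (C := dist f g)
          (Eventually.of_forall fun y => ?_)).trans ?_
        · rw [← dist_eq_norm]
          exact ContinuousMap.dist_apply_le_dist y
        · rw [mul_comm]; rfl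
      exact isClosed_eq (hcont μ) (hcont ν)
    · intro f g hf hg
      simp only [ContinuousMap.add_apply]
      rw [integral_add (integrable_cont μ f) (integrable_cont μ g),
        integral_add (integrable_cont ν f) (integrable_cont ν g), hf, hg]
    · intro c f hf
      simp only [ContinuousMap.smul_apply]
      rw [integral_smul, integral_smul, hf]
    · intro l
      exact h l
  refine ext_of_forall_integral_eq_of_IsFiniteMeasure fun f => ?_
  have h1 := key ⟨fun y => ((f y : ℝ) : ℂ), Complex.continuous_ofReal.comp f.continuous⟩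
  simp only [ContinuousMap.coe_mk] at h1
  rw [integral_complex_ofReal, integral_complex_ofReal] at h1
  exact_mod_cast h1

end Pool.Agent.H4.ST
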